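import Mathlib

open CategoryTheory MonoidalCategory TensorProduct

namespace Pool.Agent.H71.NC

universe w v u

/-- A realization of an `F`-linear symmetric monoidal category `C` in super vector spaces over
`K` (`K` an extension of the coefficient field `F`): an additive `F`-linear strong monoidal
functor `H` to `K`-vector spaces, a decomposition of every `H A` into an even part `part A 0`
and an odd part `part A 1`, respected by all morphisms, by the tensorator and by the unit,
such that the symmetry of `C` goes to the Koszul symmetry of super vector spaces. -/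
structure SuperRealization (F K : Type w) [Field F] [Field K] [Algebra F K]
    (C : Type u) [Category.{v} C] [Preadditive C] [Linear F C]
    [MonoidalCategory C] [SymmetricCategory C] where
  H : C ⥤ ModuleCat.{w} K
  monoidal : H.Monoidal
  H_add : ∀ {A B : C} (f g : A ⟶ B), H.map (f + g) = H.map f + H.map g
  H_smul : ∀ {A B : C} (r : F) (f : A ⟶ B), H.map (r • f) = algebraMap F K r • H.map f
  part : ∀ A : C, ZMod 2 → Submodule K (H.obj A)
  isCompl : ∀ A : C, IsCompl (part A 0) (part A 1)
  map_mem : ∀ {A B : C} (f : A ⟶ B) (i : ZMod 2) (x : H.obj A),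
    x ∈ part A i → (H.map f).hom x ∈ part B i
  one_mem : (Functor.LaxMonoidal.ε H).hom (1 : K) ∈ part (𝟙_ C) 0
  tensor_mem : ∀ (A B : C) (i j : ZMod 2) (x : H.obj A) (y : H.obj B),
    x ∈ part A i → y ∈ part B j →
      (Functor.LaxMonoidal.μ H A B).hom (x ⊗ₜ[K] y) ∈ part (A ⊗ B) (i + j)
  koszul : ∀ (A B : C) (i j : ZMod 2) (x : H.obj A) (y : H.obj B),
    x ∈ part A i → y ∈ part B j →
      (H.map (β_ A B).hom).hom ((Functor.LaxMonoidal.μ H A B).hom (x ⊗ₜ[K] y)) =
        ((-1 : K) ^ (i.val * j.val)) • (Functor.LaxMonoidal.μ H B A).hom (y ⊗ₜ[K] x)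

attribute [instance] SuperRealization.monoidal

variable {F K : Type w} [Field F] [Field K] [Algebra F K]
    {C : Type u} [Category.{v} C] [Preadditive C] [Linear F C]
    [MonoidalCategory C] [SymmetricCategory C]

namespace SuperRealization

variable (R : SuperRealization F K C)

/-- the tensorator on elements -/
noncomputable def mu (A B : C) : R.H.obj A ⊗[K] R.H.obj B →ₗ[K] R.H.obj (A ⊗ B) :=
  (Functor.LaxMonoidal.μ R.H A B).hom

/-- the image of `1` in `H 𝟙` -/
noncomputable def one : R.H.obj (𝟙_ C) := (Functor.LaxMonoidal.ε R.H).hom (1 : K)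

/-- action of a morphism -/
noncomputable def act {A B : C} (f : A ⟶ B) : R.H.obj A →ₗ[K] R.H.obj B := (R.H.map f).hom

theorem act_comp {A B D : C} (f : A ⟶ B) (g : B ⟶ D) (x : R.H.obj A) :
    R.act (f ≫ g) x = R.act g (R.act f x) := by
  simp [act]

theorem act_id {A : C} (x : R.H.obj A) : R.act (𝟙 A) x = x := by
  simp [act]

theorem act_add {A B : C} (f g : A ⟶ B) (x : R.H.obj A) :
    R.act (f + g) x = R.act f x + R.act g x := by
  simp [act, R.H_add]

theorem act_smul {A B : C} (r : F) (f : A ⟶ B) (x : R.H.obj A) :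
    R.act (r • f) x = algebraMap F K r • R.act f x := by
  simp [act, R.H_smul]

theorem act_whiskerRight {A B : C} (f : A ⟶ B) (Z : C) (x : R.H.obj A) (z : R.H.obj Z) :
    R.act (f ▷ Z) (R.mu A Z (x ⊗ₜ z)) = R.mu B Z (R.act f x ⊗ₜ z) := by
  have := congrArg (fun f => f.hom (x ⊗ₜ[K] z))
    (Functor.LaxMonoidal.μ_natural_left R.H f Z)
  exact this.symm

theorem act_whiskerLeft {A B : C} (Z : C) (f : A ⟶ B) (z : R.H.obj Z) (x : R.H.obj A) :
    R.act (Z ◁ f) (R.mu Z A (z ⊗ₜ x)) = R.mu Z B (z ⊗ₜ R.act f x) := by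
  have := congrArg (fun f => f.hom (z ⊗ₜ[K] x))
    (Functor.LaxMonoidal.μ_natural_right R.H Z f)
  exact this.symm

theorem act_assoc {A B D : C} (x : R.H.obj A) (y : R.H.obj B) (z : R.H.obj D) :
    R.act (α_ A B D).hom (R.mu (A ⊗ B) D (R.mu A B (x ⊗ₜ y) ⊗ₜ z)) =
      R.mu A (B ⊗ D) (x ⊗ₜ R.mu B D (y ⊗ₜ z)) := by
  have := congrArg (fun f => f.hom ((x ⊗ₜ[K] y) ⊗ₜ[K] z))
    (Functor.LaxMonoidal.associativity R.H A B D)
  exact this

theorem act_assoc_inv {A B D : C} (x : R.H.obj A) (y : R.H.obj B) (z : R.H.obj D) :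
    R.act (α_ A B D).inv (R.mu A (B ⊗ D) (x ⊗ₜ R.mu B D (y ⊗ₜ z))) =
      R.mu (A ⊗ B) D (R.mu A B (x ⊗ₜ y) ⊗ₜ z) := by
  rw [← act_assoc, ← act_comp]
  simp [act_id]

theorem act_leftUnitor {A : C} (x : R.H.obj A) :
    R.act (λ_ A).hom (R.mu (𝟙_ C) A (R.one ⊗ₜ x)) = x := by
  have := congrArg (fun f => f.hom ((1 : K) ⊗ₜ[K] x))
    (Functor.LaxMonoidal.left_unitality R.H A)
  refine this.symm.trans ?_
  refine (ModuleCat.MonoidalCategory.leftUnitor_hom_apply (1 : K) x).trans ?_
  simp

theorem act_rightUnitor {A : C} (x : R.H.obj A) :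
    R.act (ρ_ A).hom (R.mu A (𝟙_ C) (x ⊗ₜ R.one)) = x := by
  have := congrArg (fun f => f.hom (x ⊗ₜ[K] (1 : K)))
    (Functor.LaxMonoidal.right_unitality R.H A)
  refine this.symm.trans ?_
  refine (ModuleCat.MonoidalCategory.rightUnitor_hom_apply x (1 : K)).trans ?_
  simp

theorem act_rightUnitor_inv {A : C} (x : R.H.obj A) :
    R.act (ρ_ A).inv x = R.mu A (𝟙_ C) (x ⊗ₜ R.one) := by
  conv_lhs => rw [← R.act_rightUnitor x]
  rw [← act_comp]
  simp [act_id]

/-- the Kunneth projector onto the even part -/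
noncomputable def projEven (A : C) : R.H.obj A →ₗ[K] R.H.obj A :=
  (R.part A 0).projection (R.part A 1) (R.isCompl A)

/-- the Kunneth projector onto the odd part -/
noncomputable def projOdd (A : C) : R.H.obj A →ₗ[K] R.H.obj A :=
  (R.part A 1).projection (R.part A 0) (R.isCompl A).symm

/-- A linear endomorphism of `H A` is algebraic if it is the image of an endomorphism of `A`. -/
def Algebraic {A : C} (T : R.H.obj A →ₗ[K] R.H.obj A) : Prop := ∃ f : A ⟶ A, R.act f = T

/-- the conjecture `C_NC(A)`: both Kunneth projectors are algebraic -/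
def CNC (A : C) : Prop := R.Algebraic (R.projEven A) ∧ R.Algebraic (R.projOdd A)

/-- parity involution -/
noncomputable def sigma (A : C) : R.H.obj A →ₗ[K] R.H.obj A := R.projEven A - R.projOdd A

theorem sigma_even {A : C} {x : R.H.obj A} (hx : x ∈ R.part A 0) : R.sigma A x = x := by
  have h1 : R.projEven A x = x := by
    unfold projEven; exact (Submodule.projection_eq_self_iff _ _).2 hx
  have h2 : R.projOdd A x = 0 := by
    unfold projOdd; exact (Submodule.projection_apply_eq_zero_iff _).2 hx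
  simp [sigma, h1, h2]

theorem sigma_odd {A : C} {x : R.H.obj A} (hx : x ∈ R.part A 1) : R.sigma A x = -x := by
  have h1 : R.projEven A x = 0 := by
    unfold projEven; exact (Submodule.projection_apply_eq_zero_iff _).2 hx
  have h2 : R.projOdd A x = x := by
    unfold projOdd; exact (Submodule.projection_eq_self_iff _ _).2 hx
  simp [sigma, h1, h2]

theorem zmod_cases (i : ZMod 2) : i = 0 ∨ i = 1 := by revert i; decide

theorem sigma_part {A : C} {i : ZMod 2} {x : R.H.obj A} (hx : x ∈ R.part A i) :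
    R.sigma A x = ((-1 : K) ^ i.val) • x := by
  rcases zmod_cases i with rfl | rfl
  · rw [R.sigma_even hx]; simp
  · rw [R.sigma_odd hx]
    have : (1 : ZMod 2).val = 1 := rfl
    rw [this]; simp

theorem projEven_add_projOdd (A : C) : R.projEven A + R.projOdd A = LinearMap.id := by
  unfold projEven projOdd
  exact Submodule.projection_add_projection_eq_id _

/-- induction over homogeneous elements -/
theorem hom_ind {A : C} {P : R.H.obj A → Prop} (x : R.H.obj A)
    (hadd : ∀ x y, P x → P y → P (x + y))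
    (hpart : ∀ (i : ZMod 2) (x : R.H.obj A), x ∈ R.part A i → P x) : P x := by
  have h := LinearMap.congr_fun (R.projEven_add_projOdd A) x
  have h' : R.projEven A x + R.projOdd A x = x := h
  rw [← h']
  refine hadd _ _ (hpart 0 _ ?_) (hpart 1 _ ?_)
  · unfold projEven; exact Submodule.projection_apply_mem _ _
  · unfold projOdd; exact Submodule.projection_apply_mem _ _

/-- the functional on the image of the unit object -/
noncomputable def scal : R.H.obj (𝟙_ C) →ₗ[K] K := (Functor.OplaxMonoidal.η R.H).hom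

theorem scal_one : R.scal R.one = 1 := by
  have := congrArg (fun f => f.hom (1 : K)) (Functor.Monoidal.ε_η R.H)
  exact this

theorem scal_smul_one (y : R.H.obj (𝟙_ C)) : R.scal y • R.one = y := by
  have := congrArg (fun f => f.hom y) (Functor.Monoidal.η_ε R.H)
  have h2 : (Functor.LaxMonoidal.ε R.H).hom (R.scal y) = y := this
  conv_rhs => rw [← h2]
  unfold one
  have h3 := map_smul (Functor.LaxMonoidal.ε R.H).hom (R.scal y) (1 : K)
  rw [smul_eq_mul, mul_one] at h3
  exact h3.symm

/-- inverse tensorator -/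
noncomputable def muInv (A B : C) : R.H.obj (A ⊗ B) →ₗ[K] R.H.obj A ⊗[K] R.H.obj B :=
  (Functor.OplaxMonoidal.δ R.H A B).hom

theorem muInv_mu (A B : C) (t : R.H.obj A ⊗[K] R.H.obj B) : R.muInv A B (R.mu A B t) = t := by
  have := congrArg (fun f => f.hom t) (Functor.Monoidal.μ_δ R.H A B)
  exact this

theorem mu_muInv (A B : C) (t : R.H.obj (A ⊗ B)) : R.mu A B (R.muInv A B t) = t := by
  have := congrArg (fun f => f.hom t) (Functor.Monoidal.δ_μ R.H A B)
  exact this

theorem part_one_unit {y : R.H.obj (𝟙_ C)} (hy : y ∈ R.part (𝟙_ C) 1) : y = 0 := by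
  have h := R.scal_smul_one y
  have h0 : y ∈ R.part (𝟙_ C) 0 := by
    rw [← h]
    exact Submodule.smul_mem _ _ R.one_mem
  have := (Submodule.disjoint_def.1 (R.isCompl (𝟙_ C)).disjoint) y h0 hy
  exact this

end SuperRealization

end Pool.Agent.H71.NC
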