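import Pool.Agent.H71.NC.Trace

open CategoryTheory MonoidalCategory TensorProduct

namespace Pool.Agent.H71.NC

universe w v u

variable {F K : Type w} [Field F] [Field K] [Algebra F K]
    {C : Type u} [Category.{v} C] [Preadditive C] [Linear F C]
    [MonoidalCategory C] [SymmetricCategory C]

/-- partial trace over the second factor -/
noncomputable def ptr {A : C} (B B' : C) [ExactPairing B B'] (u : A ⊗ B ⟶ A ⊗ B) : A ⟶ A :=
  (ρ_ A).inv ≫ A ◁ η_ B B' ≫ (α_ A B B').inv ≫ u ▷ B' ≫ (α_ A B B').hom ≫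
    A ◁ (β_ B B').hom ≫ A ◁ ε_ B B' ≫ (ρ_ A).hom

/-- categorical trace -/
noncomputable def ctr (B B' : C) [ExactPairing B B'] (u : B ⟶ B) : 𝟙_ C ⟶ 𝟙_ C :=
  η_ B B' ≫ u ▷ B' ≫ (β_ B B').hom ≫ ε_ B B'

namespace SuperRealization

variable (R : SuperRealization F K C)

theorem act_ptr {A : C} (B B' : C) [ExactPairing B B'] (u : A ⊗ B ⟶ A ⊗ B)
    (T : R.H.obj A →ₗ[K] R.H.obj A) (S : R.H.obj B →ₗ[K] R.H.obj B)
    (hu : ∀ a b, R.act u (R.mu A B (a ⊗ₜ b)) = R.mu A B (T a ⊗ₜ S b)) (a : R.H.obj A) :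
    R.act (ptr B B' u) a = LinearMap.trace K _ (R.sigma B ∘ₗ S) • T a := by
  obtain ⟨s, hs⟩ := R.exists_dual B B'
  unfold ptr
  simp only [act_comp]
  rw [act_rightUnitor_inv, act_whiskerLeft, ← mu_coev, hs, R.trace_eq B B' hs]
  simp only [map_sum, TensorProduct.tmul_sum, Finset.sum_smul]
  refine Finset.sum_congr rfl fun p _ => ?_
  rw [act_assoc_inv, act_whiskerRight, hu, act_assoc, act_whiskerLeft, act_whiskerLeft,
    ev_braid, TensorProduct.tmul_smul, map_smul, map_smul, act_rightUnitor]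
  rfl

theorem act_ctr (B B' : C) [ExactPairing B B'] (u : B ⟶ B) :
    R.act (ctr B B' u) R.one = LinearMap.trace K _ (R.sigma B ∘ₗ R.act u) • R.one := by
  obtain ⟨s, hs⟩ := R.exists_dual B B'
  unfold ctr
  simp only [act_comp]
  rw [← mu_coev, hs, R.trace_eq B B' hs]
  simp only [map_sum, Finset.sum_smul]
  refine Finset.sum_congr rfl fun p _ => ?_
  rw [act_whiskerRight, ev_braid]
  rfl

theorem sigma_mu (A B : C) (a : R.H.obj A) (b : R.H.obj B) :
    R.sigma (A ⊗ B) (R.mu A B (a ⊗ₜ b)) = R.mu A B (R.sigma A a ⊗ₜ R.sigma B b) := by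
  refine R.hom_ind (P := fun a => R.sigma (A ⊗ B) (R.mu A B (a ⊗ₜ b)) =
    R.mu A B (R.sigma A a ⊗ₜ R.sigma B b)) a ?_ ?_
  · intro x y hx hy
    simp only [TensorProduct.add_tmul, map_add, hx, hy]
  · intro i x hx
    refine R.hom_ind (P := fun b => R.sigma (A ⊗ B) (R.mu A B (x ⊗ₜ b)) =
      R.mu A B (R.sigma A x ⊗ₜ R.sigma B b)) b ?_ ?_
    · intro c d hc hd
      simp only [TensorProduct.tmul_add, map_add, hc, hd]
    · intro j y hy
      have h := R.tensor_mem A B i j x y hx hy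
      have h' : R.sigma (A ⊗ B) (R.mu A B (x ⊗ₜ y)) =
        ((-1 : K) ^ (i + j).val) • R.mu A B (x ⊗ₜ y) := R.sigma_part h
      rw [h', R.sigma_part hx, R.sigma_part hy, TensorProduct.smul_tmul_smul, map_smul]
      congr 1
      rcases zmod_cases i with rfl | rfl <;> rcases zmod_cases j with rfl | rfl
      · simp
      · simp
      · simp
      · have h1 : (1 : ZMod 2).val = 1 := rfl
        have h2 : ((1 : ZMod 2) + 1).val = 0 := rfl
        rw [h1, h2]; simp

theorem sigma_sigma (A : C) : R.sigma A ∘ₗ R.sigma A = LinearMap.id := by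
  ext x
  refine R.hom_ind (P := fun x => (R.sigma A ∘ₗ R.sigma A) x = LinearMap.id x) x ?_ ?_
  · intro x y hx hy; simp only [map_add, hx, hy]
  · intro i x hx
    simp only [LinearMap.comp_apply, LinearMap.id_apply]
    rw [R.sigma_part hx, map_smul, R.sigma_part hx, smul_smul, ← mul_pow]
    simp

theorem sigma_act {A B : C} (f : A ⟶ B) (x : R.H.obj A) :
    R.sigma B (R.act f x) = R.act f (R.sigma A x) := by
  refine R.hom_ind (P := fun x => R.sigma B (R.act f x) = R.act f (R.sigma A x)) x ?_ ?_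
  · intro x y hx hy; simp only [map_add, hx, hy]
  · intro i x hx
    have h : R.act f x ∈ R.part B i := R.map_mem f i x hx
    rw [R.sigma_part h, R.sigma_part hx, map_smul]

theorem two_smul_projEven (A : C) (x : R.H.obj A) :
    (2 : K) • R.projEven A x = x + R.sigma A x := by
  have h := LinearMap.congr_fun (R.projEven_add_projOdd A) x
  have h' : R.projEven A x + R.projOdd A x = x := h
  have h2 : R.sigma A x = R.projEven A x - R.projOdd A x := rfl
  rw [h2, eq_comm]
  calc x + (R.projEven A x - R.projOdd A x)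
      = (R.projEven A x + R.projOdd A x) + (R.projEven A x - R.projOdd A x) := by rw [h']
    _ = (2 : K) • R.projEven A x := by rw [two_smul]; abel

theorem two_smul_projOdd (A : C) (x : R.H.obj A) :
    (2 : K) • R.projOdd A x = x - R.sigma A x := by
  have h := LinearMap.congr_fun (R.projEven_add_projOdd A) x
  have h' : R.projEven A x + R.projOdd A x = x := h
  have h2 : R.sigma A x = R.projEven A x - R.projOdd A x := rfl
  rw [h2, eq_comm]
  calc x - (R.projEven A x - R.projOdd A x)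
      = (R.projEven A x + R.projOdd A x) - (R.projEven A x - R.projOdd A x) := by rw [h']
    _ = (2 : K) • R.projOdd A x := by rw [two_smul]; abel

theorem act_sub {A B : C} (f g : A ⟶ B) (x : R.H.obj A) :
    R.act (f - g) x = R.act f x - R.act g x := by
  rw [eq_sub_iff_add_eq, ← act_add, sub_add_cancel]

/-- `C_NC(A)` is the algebraicity of the parity involution (characteristic zero) -/
theorem cnc_iff_sigma [CharZero F] (A : C) : R.CNC A ↔ R.Algebraic (R.sigma A) := by
  have : CharZero K := charZero_of_injective_algebraMap (algebraMap F K).injective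
  have h2 : (2 : K) ≠ 0 := two_ne_zero
  have h2' : algebraMap F K (2⁻¹ : F) = (2 : K)⁻¹ := by
    rw [map_inv₀, map_ofNat]
  constructor
  · rintro ⟨⟨f, hf⟩, ⟨g, hg⟩⟩
    refine ⟨f - g, ?_⟩
    ext x
    rw [act_sub, hf, hg]
    rfl
  · rintro ⟨f, hf⟩
    refine ⟨⟨(2⁻¹ : F) • (𝟙 A + f), ?_⟩, ⟨(2⁻¹ : F) • (𝟙 A - f), ?_⟩⟩
    · ext x
      rw [act_smul, act_add, act_id, hf, ← two_smul_projEven, h2', smul_smul,
        inv_mul_cancel₀ h2, one_smul]
    · ext x
      rw [act_smul, act_sub, act_id, hf, ← two_smul_projOdd, h2', smul_smul,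
        inv_mul_cancel₀ h2, one_smul]

theorem ext_mu {A B : C} {D : C} {T S : R.H.obj (A ⊗ B) →ₗ[K] R.H.obj D}
    (h : ∀ a b, T (R.mu A B (a ⊗ₜ b)) = S (R.mu A B (a ⊗ₜ b))) : T = S := by
  have h2 : T ∘ₗ R.mu A B = S ∘ₗ R.mu A B := by
    ext a b
    exact h a b
  ext x
  rw [← R.mu_muInv A B x]
  exact LinearMap.congr_fun h2 _

/-- the parity involution of `A ⊗ B` is algebraic if those of `A` and `B` are -/
theorem algebraic_sigma_tensor {A B : C} (hA : R.Algebraic (R.sigma A))
    (hB : R.Algebraic (R.sigma B)) : R.Algebraic (R.sigma (A ⊗ B)) := by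
  obtain ⟨f, hf⟩ := hA
  obtain ⟨g, hg⟩ := hB
  refine ⟨f ▷ B ≫ A ◁ g, ?_⟩
  refine R.ext_mu fun a b => ?_
  rw [act_comp, act_whiskerRight, act_whiskerLeft, hf, hg, sigma_mu]

/-- cancellation of the second factor -/
theorem algebraic_sigma_of_tensor [CharZero F] {A : C} (B B' : C) [ExactPairing B B']
    [Nontrivial (R.H.obj B)] (h : R.Algebraic (R.sigma (A ⊗ B))) :
    R.Algebraic (R.sigma A) := by
  obtain ⟨u, hu⟩ := h
  have : CharZero K := charZero_of_injective_algebraMap (algebraMap F K).injective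
  have hfin := R.finite_obj B B'
  have key : ∀ a, R.act (ptr B B' u) a =
      ((Module.finrank K (R.H.obj B) : ℕ) : K) • R.sigma A a := by
    intro a
    have h1 := R.act_ptr B B' u (R.sigma A) (R.sigma B)
      (fun a b => by rw [hu, sigma_mu]) a
    rw [h1, sigma_sigma, LinearMap.trace_id]
  have hne : ((Module.finrank K (R.H.obj B) : ℕ) : F) ≠ 0 := by
    have := Module.finrank_pos (R := K) (M := R.H.obj B)
    exact_mod_cast this.ne'
  have hne' : ((Module.finrank K (R.H.obj B) : ℕ) : K) ≠ 0 := by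
    have := Module.finrank_pos (R := K) (M := R.H.obj B)
    exact_mod_cast this.ne'
  refine ⟨(((Module.finrank K (R.H.obj B) : ℕ) : F)⁻¹) • ptr B B' u, ?_⟩
  ext a
  rw [act_smul, key, map_inv₀, map_natCast, smul_smul, inv_mul_cancel₀ hne', one_smul]

theorem algebraic_sigma_swap {A B : C} (h : R.Algebraic (R.sigma (A ⊗ B))) :
    R.Algebraic (R.sigma (B ⊗ A)) := by
  obtain ⟨u, hu⟩ := h
  refine ⟨(β_ B A).hom ≫ u ≫ (β_ B A).inv, ?_⟩
  ext x
  rw [act_comp, act_comp, hu, ← sigma_act, ← act_comp]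
  simp [act_id]

/-- tensor cancellation for `C_NC` -/
theorem cnc_tensor_iff [CharZero F] (A B A' B' : C) [ExactPairing A A'] [ExactPairing B B']
    [Nontrivial (R.H.obj A)] [Nontrivial (R.H.obj B)] :
    R.CNC (A ⊗ B) ↔ R.CNC A ∧ R.CNC B := by
  simp only [cnc_iff_sigma]
  constructor
  · intro h
    exact ⟨R.algebraic_sigma_of_tensor B B' h,
      R.algebraic_sigma_of_tensor A A' (R.algebraic_sigma_swap h)⟩
  · rintro ⟨hA, hB⟩
    exact R.algebraic_sigma_tensor hA hB

end SuperRealization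

end Pool.Agent.H71.NC
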