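import Pool.Agent.H71.NC.Descent

open Matrix Polynomial

namespace Pool.Agent.H71.NC

section

variable {F K : Type*} [Field F] [Field K] [Algebra F K]

theorem aeval_mulVec {L : Type*} [Field L] {n : Type*} [Fintype n] [DecidableEq n]
    (M : Matrix n n L) (p : L[X]) (v : n → L) (μ : L) (h : M *ᵥ v = μ • v) :
    (aeval M p) *ᵥ v = (eval μ p) • v := by
  induction p using Polynomial.induction_on' with
  | add p q hp hq => rw [map_add, Matrix.add_mulVec, hp, hq, eval_add, add_smul]
  | monomial k a =>
    rw [aeval_monomial, eval_monomial, ← Matrix.mulVec_mulVec]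
    have hk : ∀ k : ℕ, (M ^ k) *ᵥ v = μ ^ k • v := by
      intro k
      induction k with
      | zero => simp
      | succ k ih =>
        rw [pow_succ, ← Matrix.mulVec_mulVec, h, Matrix.mulVec_smul, ih, smul_smul, pow_succ,
          mul_comm]
    rw [hk, Matrix.mulVec_smul, Matrix.algebraMap_eq_diagonal, mul_smul]
    rw [smul_comm]
    congr 1
    ext i
    simp [Matrix.mulVec_diagonal]

theorem mapMatrix_algebraMap {P Q : Type*} [CommRing P] [CommRing Q] {n : Type*} [Fintype n]
    [DecidableEq n] (e : P →+* Q) :
    (e.mapMatrix).comp (algebraMap P (Matrix n n P)) = (algebraMap Q (Matrix n n Q)).comp e := by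
  refine RingHom.ext fun a => ?_
  ext j k
  simp only [RingHom.comp_apply, RingHom.mapMatrix_apply, Matrix.map_apply,
    Matrix.algebraMap_matrix_apply]
  split_ifs <;> simp

theorem coprime_of_det {n m : Type*} [Fintype n] [DecidableEq n] [Fintype m] [DecidableEq m]
    (M : Matrix n n K) (N : Matrix m m K) (h : (aeval M N.charpoly).det ≠ 0) :
    IsCoprime M.charpoly N.charpoly := by
  rw [Polynomial.isCoprime_iff_aeval_ne_zero_of_isAlgClosed K (AlgebraicClosure K)]
  intro μ
  by_contra hcon
  push Not at hcon
  obtain ⟨h1, h2⟩ := hcon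
  apply h
  set i := algebraMap K (AlgebraicClosure K) with hi
  have h1' : eval μ (M.map i).charpoly = 0 := by
    rw [Matrix.charpoly_map, eval_map]; exact h1
  have h2' : eval μ (N.charpoly.map i) = 0 := by
    rw [eval_map]; exact h2
  rw [Matrix.eval_charpoly] at h1'
  obtain ⟨v, hv, hv2⟩ := Matrix.exists_mulVec_eq_zero_iff.2 h1'
  have hv3 : (M.map i) *ᵥ v = μ • v := by
    rw [Matrix.sub_mulVec, sub_eq_zero] at hv2
    rw [← hv2]
    ext j
    simp [Matrix.scalar_apply, Matrix.mulVec_diagonal]
  have hv4 := aeval_mulVec (M.map i) (N.charpoly.map i) v μ hv3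
  rw [h2', zero_smul] at hv4
  have h5 : (aeval (M.map i) (N.charpoly.map i)).det = 0 :=
    Matrix.exists_mulVec_eq_zero_iff.1 ⟨v, hv, hv4⟩
  have h6 : aeval (M.map i) (N.charpoly.map i) = (aeval M N.charpoly).map i := by
    have := Polynomial.hom_eval₂ N.charpoly (algebraMap K (Matrix n n K)) (i.mapMatrix) M
    rw [aeval_def, eval₂_map]
    have h7 : (aeval M N.charpoly).map i = i.mapMatrix (eval₂ (algebraMap K (Matrix n n K)) M
      N.charpoly) := rfl
    rw [h7, this, mapMatrix_algebraMap]
    rfl
  rw [h6] at h5
  have h8 : i (aeval M N.charpoly).det = 0 := by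
    rw [RingHom.map_det]; exact h5
  exact (map_eq_zero i).1 h8

/-- a rational point of the coefficient space with coprime characteristic polynomials -/
theorem exists_coprime [Infinite F] {ι n m : Type*} [Fintype ι] [Fintype n] [DecidableEq n]
    [Fintype m] [DecidableEq m] (M : ι → Matrix n n K) (N : ι → Matrix m m K) (l : ι → K)
    (hM : ∑ i, l i • M i = 1) (hN : ∑ i, l i • N i = 0) :
    ∃ t : ι → F, IsCoprime (∑ i, algebraMap F K (t i) • M i).charpoly
      (∑ i, algebraMap F K (t i) • N i).charpoly := by
  classical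
  -- generic matrices
  set P := MvPolynomial ι K
  set gM : Matrix n n P := ∑ i, (MvPolynomial.X i : P) • (M i).map (MvPolynomial.C : K →+* P)
    with hgM
  set gN : Matrix m m P := ∑ i, (MvPolynomial.X i : P) • (N i).map (MvPolynomial.C : K →+* P)
    with hgN
  set D : P := (aeval gM gN.charpoly).det with hD
  have hev : ∀ x : ι → K, MvPolynomial.eval x D =
      (aeval (∑ i, x i • M i) (∑ i, x i • N i).charpoly).det := by
    intro x
    set e := MvPolynomial.eval x with he
    have e1 : gM.map e = ∑ i, x i • M i := by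
      ext a b
      simp [hgM, Matrix.sum_apply, he]
    have e2 : gN.map e = ∑ i, x i • N i := by
      ext a b
      simp [hgN, Matrix.sum_apply, he]
    rw [hD, RingHom.map_det, ← e1, ← e2, Matrix.charpoly_map]
    congr 1
    have := Polynomial.hom_eval₂ gN.charpoly (algebraMap P (Matrix n n P)) (e.mapMatrix) gM
    rw [aeval_def, this, aeval_def, eval₂_map, mapMatrix_algebraMap]
    rfl
  have hne : D ≠ 0 := by
    intro h0
    have h1 := hev l
    rw [h0, map_zero, hM, hN] at h1
    have h2 : (0 : Matrix m m K).charpoly = X ^ Fintype.card m := by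
      simp [Matrix.charpoly]
    rw [h2] at h1
    simp at h1
  by_contra hcon
  push Not at hcon
  apply hne
  refine MvPolynomial.funext_set (fun _ => Set.range (algebraMap F K))
    (fun _ => Set.infinite_range_of_injective (algebraMap F K).injective) ?_
  intro x hx
  rw [map_zero, hev]
  have hx' : ∀ i, ∃ t, algebraMap F K t = x i := fun i => hx i (Set.mem_univ i)
  choose t ht using hx'
  by_contra hdet
  refine hcon t ?_
  have := coprime_of_det _ _ hdet
  simp only [ht]
  exact this

end

end Pool.Agent.H71.NC
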