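import Pool.Agent.H71.NC.Cancel
import Pool.Agent.H71.NC.Density

open CategoryTheory MonoidalCategory TensorProduct Polynomial

namespace Pool.Agent.H71.NC

universe w v u

variable {F K : Type w} [Field F] [Field K] [Algebra F K]
    {C : Type u} [Category.{v} C] [Preadditive C] [Linear F C]
    [MonoidalCategory C] [SymmetricCategory C]

namespace SuperRealization

variable (R : SuperRealization F K C)

/-- restriction of `act u` to a parity component -/
noncomputable def resL {A : C} (i : ZMod 2) (u : A ⟶ A) :
    R.part A i →ₗ[K] R.part A i :=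
  (R.act u).restrict (fun x hx => R.map_mem u i x hx)

theorem resL_apply {A : C} (i : ZMod 2) (u : A ⟶ A) (x : R.part A i) :
    ((R.resL i u x : R.part A i) : R.H.obj A) = R.act u x := rfl

section
variable {A : C} {i : ZMod 2} {n : Type*} [Fintype n] [DecidableEq n]
  (b : Module.Basis n K (R.part A i))

/-- the matrix of the action on a parity component, as an algebra homomorphism -/
noncomputable def mat : End A →ₐ[F] Matrix n n K where
  toFun u := LinearMap.toMatrix b b (R.resL i u)
  map_one' := by
    have : R.resL i (1 : End A) = LinearMap.id := by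
      ext x
      rw [resL_apply]
      exact R.act_id _
    rw [this, LinearMap.toMatrix_id]
  map_mul' f g := by
    have : R.resL i (f * g : End A) = R.resL i f ∘ₗ R.resL i g := by
      ext x
      rw [resL_apply, LinearMap.comp_apply, resL_apply, resL_apply]
      exact R.act_comp _ _ _
    rw [this, LinearMap.toMatrix_comp b b b]
  map_zero' := by
    have : R.resL i (0 : End A) = 0 := by
      ext x
      rw [resL_apply]
      have := R.act_smul (A := A) (B := A) (0 : F) (0 : A ⟶ A) x
      rw [smul_zero, map_zero, zero_smul] at this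
      exact this
    rw [this, map_zero]
  map_add' f g := by
    have : R.resL i (f + g : End A) = R.resL i f + R.resL i g := by
      ext x
      rw [resL_apply]
      exact R.act_add _ _ _
    rw [this, map_add]
  commutes' r := by
    have : R.resL i (algebraMap F (End A) r) = algebraMap F K r • LinearMap.id := by
      ext x
      rw [resL_apply, Algebra.algebraMap_eq_smul_one]
      refine (R.act_smul r (𝟙 A) _).trans ?_
      rw [act_id]
      rfl
    rw [this, map_smul, LinearMap.toMatrix_id]
    ext a c
    simp [Matrix.algebraMap_matrix_apply, Matrix.one_apply]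

theorem mat_apply (u : A ⟶ A) : R.mat b u = LinearMap.toMatrix b b (R.resL i u) := rfl

end

theorem one_ne_zero' : R.one ≠ 0 := by
  intro h
  have := R.scal_one
  rw [h, map_zero] at this
  exact zero_ne_one this

/-- supertraces of algebraic endomorphisms lie in the coefficient field -/
theorem strace_mem (hunit : ∀ z : 𝟙_ C ⟶ 𝟙_ C, ∃ c : F, z = c • 𝟙 (𝟙_ C)) (A A' : C)
    [ExactPairing A A'] (u : A ⟶ A) :
    LinearMap.trace K _ (R.sigma A ∘ₗ R.act u) ∈ (algebraMap F K).range := by
  obtain ⟨c, hc⟩ := hunit (ctr A A' u)
  have h := R.act_ctr A A' u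
  rw [hc, act_smul, act_id] at h
  refine ⟨c, ?_⟩
  have h2 : (algebraMap F K c - LinearMap.trace K _ (R.sigma A ∘ₗ R.act u)) • R.one = 0 := by
    rw [sub_smul, h, sub_self]
  rcases smul_eq_zero.1 h2 with h3 | h3
  · exact sub_eq_zero.1 h3
  · exact absurd h3 R.one_ne_zero'

theorem isInternal (A : C) : DirectSum.IsInternal (R.part A) := by
  refine (DirectSum.isInternal_submodule_iff_isCompl (R.part A) (i := 0) (j := 1) (by decide)
    ?_).2 (R.isCompl A)
  ext i
  simp only [Set.mem_univ, Set.mem_insert_iff, Set.mem_singleton_iff, true_iff]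
  exact zmod_cases i

/-- the supertrace is the difference of the traces on the two components -/
theorem strace_eq {A : C} [Module.Finite K (R.H.obj A)] (u : A ⟶ A) :
    LinearMap.trace K _ (R.sigma A ∘ₗ R.act u) =
      LinearMap.trace K _ (R.resL 0 u) - LinearMap.trace K _ (R.resL 1 u) := by
  have hmap : ∀ i, Set.MapsTo (R.sigma A ∘ₗ R.act u) (R.part A i) (R.part A i) := by
    intro i x hx
    have h : R.act u x ∈ R.part A i := R.map_mem u i x hx
    have h2 : (R.sigma A ∘ₗ R.act u) x = ((-1 : K) ^ i.val) • R.act u x := R.sigma_part h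
    rw [SetLike.mem_coe, h2]
    exact Submodule.smul_mem _ _ h
  rw [LinearMap.trace_eq_sum_trace_restrict (R.isInternal A) hmap]
  have huniv : (Finset.univ : Finset (ZMod 2)) = {0, 1} := by decide
  rw [huniv, Finset.sum_pair (by decide)]
  have h0 : (R.sigma A ∘ₗ R.act u).restrict (hmap 0) = R.resL 0 u := by
    ext x
    have h : R.act u x ∈ R.part A 0 := R.map_mem u 0 x x.2
    exact R.sigma_even h
  have h1 : (R.sigma A ∘ₗ R.act u).restrict (hmap 1) = - R.resL 1 u := by
    ext x
    have h : R.act u x ∈ R.part A 1 := R.map_mem u 1 x x.2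
    exact R.sigma_odd h
  rw [h0, h1, map_neg, sub_eq_add_neg]

/-- If the even projector is a `K`-linear combination of algebraic endomorphisms, then it is
algebraic. -/
theorem projEven_algebraic_of_span [CharZero F]
    (hunit : ∀ z : 𝟙_ C ⟶ 𝟙_ C, ∃ c : F, z = c • 𝟙 (𝟙_ C)) (A A' : C) [ExactPairing A A']
    (h : R.projEven A ∈ Submodule.span K {T : R.H.obj A →ₗ[K] R.H.obj A | R.Algebraic T}) :
    R.Algebraic (R.projEven A) := by
  have : CharZero K := charZero_of_injective_algebraMap (algebraMap F K).injective
  have hfin := R.finite_obj A A'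
  obtain ⟨r, l, g, hg⟩ := Submodule.mem_span_set'.1 h
  choose f hf using fun i => (g i).2
  have hsum : ∑ i, l i • R.act (f i) = R.projEven A := by
    rw [← hg]
    exact Finset.sum_congr rfl fun i _ => by rw [hf i]
  let b0 := Module.finBasis K (R.part A 0)
  let b1 := Module.finBasis K (R.part A 1)
  have hM : ∑ i, l i • R.mat b0 (f i) = 1 := by
    have h1 : ∑ i, l i • R.resL 0 (f i) = LinearMap.id := by
      ext x
      have h2 := LinearMap.congr_fun hsum (x : R.H.obj A)
      have h3 : R.projEven A (x : R.H.obj A) = x := by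
        unfold projEven; exact (Submodule.projection_eq_self_iff _ _).2 x.2
      rw [h3] at h2
      simp only [LinearMap.sum_apply, LinearMap.smul_apply, AddSubmonoidClass.coe_finsetSum,
        SetLike.val_smul, resL_apply, LinearMap.id_apply] at h2 ⊢
      exact h2
    have h4 := congrArg (LinearMap.toMatrix b0 b0) h1
    rw [map_sum, LinearMap.toMatrix_id] at h4
    rw [← h4]
    exact Finset.sum_congr rfl fun i _ => by rw [mat_apply, map_smul]
  have hN : ∑ i, l i • R.mat b1 (f i) = 0 := by
    have h1 : ∑ i, l i • R.resL 1 (f i) = 0 := by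
      ext x
      have h2 := LinearMap.congr_fun hsum (x : R.H.obj A)
      have h3 : R.projEven A (x : R.H.obj A) = 0 := by
        unfold projEven; exact (Submodule.projection_apply_eq_zero_iff _).2 x.2
      rw [h3] at h2
      simp only [LinearMap.sum_apply, LinearMap.smul_apply, AddSubmonoidClass.coe_finsetSum,
        SetLike.val_smul, resL_apply, LinearMap.zero_apply, ZeroMemClass.coe_zero] at h2 ⊢
      exact h2
    have h4 := congrArg (LinearMap.toMatrix b1 b1) h1
    rw [map_sum, map_zero] at h4
    rw [← h4]
    exact Finset.sum_congr rfl fun i _ => by rw [mat_apply, map_smul]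
  obtain ⟨t, ht⟩ := exists_coprime (F := F) (fun i => R.mat b0 (f i)) (fun i => R.mat b1 (f i))
    l hM hN
  set v : End A := ∑ i, t i • (f i : End A) with hv
  have hv0 : ∑ i, algebraMap F K (t i) • R.mat b0 (f i) = R.mat b0 v := by
    rw [hv, map_sum]
    exact Finset.sum_congr rfl fun i _ => by rw [map_smul, algebraMap_smul]
  have hv1 : ∑ i, algebraMap F K (t i) • R.mat b1 (f i) = R.mat b1 v := by
    rw [hv, map_sum]
    exact Finset.sum_congr rfl fun i _ => by rw [map_smul, algebraMap_smul]
  rw [hv0, hv1] at ht
  obtain ⟨P, Q, hP, hQ⟩ := charpoly_descent (F := F) (R.mat b0 v) (R.mat b1 v) (by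
    intro k
    rw [← map_pow, ← map_pow]
    have h1 := R.strace_mem hunit A A' (v ^ (k + 1) : End A)
    rw [strace_eq, LinearMap.trace_eq_matrix_trace K b0, LinearMap.trace_eq_matrix_trace K b1] at h1
    exact h1) ht
  have hPQ : IsCoprime P Q := by
    rw [hP, hQ] at ht
    exact (Polynomial.isCoprime_map _).1 ht
  obtain ⟨a, c, hac⟩ := hPQ
  set e : F[X] := c * Q with he
  have he' : e = 1 - a * P := by rw [he, ← hac]; ring
  have hP0 : aeval (R.mat b0 v) P = 0 := by
    have := Matrix.aeval_self_charpoly (R.mat b0 v)
    rw [hP, Polynomial.aeval_map_algebraMap] at this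
    exact this
  have hQ0 : aeval (R.mat b1 v) Q = 0 := by
    have := Matrix.aeval_self_charpoly (R.mat b1 v)
    rw [hQ, Polynomial.aeval_map_algebraMap] at this
    exact this
  have hm0 : R.mat b0 (aeval v e) = 1 := by
    rw [← Polynomial.aeval_algHom_apply, he', map_sub, map_one, map_mul, hP0, mul_zero, sub_zero]
  have hm1 : R.mat b1 (aeval v e) = 0 := by
    rw [← Polynomial.aeval_algHom_apply, he, map_mul, hQ0, mul_zero]
  have hr0 : R.resL 0 (aeval v e : End A) = LinearMap.id := by
    apply (LinearMap.toMatrix b0 b0).injective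
    rw [LinearMap.toMatrix_id]
    exact hm0
  have hr1 : R.resL 1 (aeval v e : End A) = 0 := by
    apply (LinearMap.toMatrix b1 b1).injective
    rw [map_zero]
    exact hm1
  refine ⟨(aeval v e : End A), ?_⟩
  ext x
  refine R.hom_ind (P := fun x => R.act (aeval v e : End A) x = R.projEven A x) x ?_ ?_
  · intro x y hx hy
    simp only [map_add, hx, hy]
  · intro i x hx
    rcases zmod_cases i with rfl | rfl
    · have h1 := LinearMap.congr_fun hr0 ⟨x, hx⟩
      have h2 : R.act (aeval v e : End A) x = x := congrArg Subtype.val h1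
      have h3 : R.projEven A x = x := by
        unfold projEven; exact (Submodule.projection_eq_self_iff _ _).2 hx
      rw [h2, h3]
    · have h1 := LinearMap.congr_fun hr1 ⟨x, hx⟩
      have h2 : R.act (aeval v e : End A) x = 0 := congrArg Subtype.val h1
      have h3 : R.projEven A x = 0 := by
        unfold projEven; exact (Submodule.projection_apply_eq_zero_iff _).2 hx
      rw [h2, h3]

end SuperRealization

end Pool.Agent.H71.NC
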