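import Pool.Agent.H71.NC.Coeff

open CategoryTheory MonoidalCategory TensorProduct

namespace Pool.Agent.H71.NC

universe w v u

/-- `T` becomes, after extension of scalars from `K` to `L`, a linear combination of members of
`S` with coefficients in the subfield `E` of `L`. -/
def CombOver (K E L : Type*) [Field K] [Field E] [Field L] [Algebra K L] [Algebra E L]
    {V : Type*} [AddCommGroup V] [Module K V] (S : Set (V →ₗ[K] V)) (T : V →ₗ[K] V) : Prop :=
  ∃ (n : ℕ) (c : Fin n → E) (f : Fin n → (V →ₗ[K] V)), (∀ i, f i ∈ S) ∧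
    T.baseChange L = ∑ i, algebraMap E L (c i) • (f i).baseChange L

theorem mem_span_of_combOver {K E L : Type*} [Field K] [Field E] [Field L] [Algebra K L]
    [Algebra E L] {V : Type*} [AddCommGroup V] [Module K V] {S : Set (V →ₗ[K] V)}
    {T : V →ₗ[K] V} (h : CombOver K E L S T) : T ∈ Submodule.span K S := by
  obtain ⟨n, c, f, hf, hT⟩ := h
  obtain ⟨ψ, hψ⟩ := LinearMap.exists_leftInverse_of_injective (Algebra.linearMap K L)
    (LinearMap.ker_eq_bot.2 (algebraMap K L).injective)
  have hψ1 : ψ 1 = 1 := by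
    have := LinearMap.congr_fun hψ 1
    simpa using this
  have key : T = ∑ i, ψ (algebraMap E L (c i)) • f i := by
    ext x
    have h1 := LinearMap.congr_fun hT ((1 : L) ⊗ₜ[K] x)
    have h2 := congrArg ((TensorProduct.lid K V).toLinearMap ∘ₗ
      (TensorProduct.map ψ (LinearMap.id : V →ₗ[K] V))) h1
    simp only [LinearMap.sum_apply, LinearMap.smul_apply, LinearMap.baseChange_tmul,
      LinearMap.comp_apply, map_sum, TensorProduct.smul_tmul', smul_eq_mul, mul_one,
      TensorProduct.map_tmul, LinearMap.id_apply, hψ1, LinearEquiv.coe_coe,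
      TensorProduct.lid_tmul, one_smul] at h2 ⊢
    exact h2
  rw [key]
  exact Submodule.sum_mem _ fun i _ => Submodule.smul_mem _ _ (Submodule.subset_span (hf i))

variable {F K : Type w} [Field F] [Field K] [Algebra F K]
    {C : Type u} [Category.{v} C] [Preadditive C] [Linear F C]
    [MonoidalCategory C] [SymmetricCategory C]

namespace SuperRealization

variable (R : SuperRealization F K C)

/-- the conjecture for `A` with coefficients in `E`: both Kunneth projectors of `A` become, after
extension of scalars from `K` to `L`, `E`-linear combinations of algebraic maps -/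
def CNCOver (E L : Type*) [Field E] [Field L] [Algebra K L] [Algebra E L] (A : C) : Prop :=
  CombOver K E L {T : R.H.obj A →ₗ[K] R.H.obj A | R.Algebraic T} (R.projEven A) ∧
  CombOver K E L {T : R.H.obj A →ₗ[K] R.H.obj A | R.Algebraic T} (R.projOdd A)

theorem combOver_of_algebraic (E L : Type*) [Field E] [Field L] [Algebra K L] [Algebra E L]
    {A : C} {T : R.H.obj A →ₗ[K] R.H.obj A} (h : R.Algebraic T) :
    CombOver K E L {T : R.H.obj A →ₗ[K] R.H.obj A | R.Algebraic T} T := by
  refine ⟨1, fun _ => 1, fun _ => T, fun _ => h, ?_⟩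
  simp

theorem cncOver_iff [CharZero F]
    (hunit : ∀ z : 𝟙_ C ⟶ 𝟙_ C, ∃ c : F, z = c • 𝟙 (𝟙_ C)) (A A' : C) [ExactPairing A A']
    (E L : Type*) [Field E] [Field L] [Algebra K L] [Algebra E L] :
    R.CNCOver E L A ↔ R.CNC A := by
  constructor
  · rintro ⟨h1, -⟩
    have h2 := R.projEven_algebraic_of_span hunit A A' (mem_span_of_combOver h1)
    refine ⟨h2, ?_⟩
    obtain ⟨f, hf⟩ := h2
    refine ⟨𝟙 A - f, ?_⟩
    ext x
    have h3 := LinearMap.congr_fun (R.projEven_add_projOdd A) x
    have h4 : R.projEven A x + R.projOdd A x = x := h3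
    rw [act_sub, act_id, hf, sub_eq_iff_eq_add, add_comm, h4]
  · rintro ⟨h1, h2⟩
    exact ⟨R.combOver_of_algebraic E L h1, R.combOver_of_algebraic E L h2⟩

end SuperRealization

end Pool.Agent.H71.NC
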