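import Pool.Agent.H71.NC.Coeff

open CategoryTheory MonoidalCategory TensorProduct

namespace Pool.Agent.H71.NC

section disj

variable {R : Type*} [Ring R]

/-- Every submodule of `X × Y` is a product. -/
def Disj (R : Type*) [Ring R] (X Y : Type*) [AddCommGroup X] [Module R X] [AddCommGroup Y]
    [Module R Y] : Prop :=
  ∀ G : Submodule R (X × Y), ∀ x y, (x, y) ∈ G → (x, (0 : Y)) ∈ G

variable {X X' Y : Type*} [AddCommGroup X] [Module R X] [AddCommGroup Y] [Module R Y]
  [AddCommGroup X'] [Module R X']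

theorem Disj.symm (h : Disj R X Y) : Disj R Y X := by
  intro G y x hG
  have h1 : (x, (0 : Y)) ∈ G.comap (LinearEquiv.prodComm R X Y).toLinearMap :=
    h _ x y (by simpa using hG)
  have h2 : ((0 : Y), x) ∈ G := by simpa using h1
  have h3 := G.sub_mem hG h2
  simpa using h3

theorem Disj.prod (h : Disj R X Y) (h' : Disj R X' Y) : Disj R (X × X') Y := by
  rintro G ⟨x, x'⟩ y hG
  -- project to `X' × Y`
  let f : (X × X') × Y →ₗ[R] X' × Y :=
    LinearMap.prodMap (LinearMap.snd R X X') LinearMap.id
  have h1 : (x', (0 : Y)) ∈ G.map f := h' _ x' y ⟨((x, x'), y), hG, rfl⟩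
  obtain ⟨⟨⟨x1, x1'⟩, y1⟩, hz, hz2⟩ := h1
  have e1 : x1' = x' := congrArg Prod.fst hz2
  have e2 : y1 = 0 := congrArg Prod.snd hz2
  subst e1 e2
  let g : X × Y →ₗ[R] (X × X') × Y :=
    LinearMap.prodMap (LinearMap.inl R X X') LinearMap.id
  have h2 : (x - x1, y) ∈ G.comap g := by
    have := G.sub_mem hG hz
    simpa [g] using this
  have h3 := h _ _ _ h2
  have h4 : ((x - x1, (0 : X')), (0 : Y)) ∈ G := by simpa [g] using h3
  have h5 := G.add_mem h4 hz
  simpa using h5

theorem Disj.congr (e : X ≃ₗ[R] X') (h : Disj R X Y) : Disj R X' Y := by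
  intro G x y hG
  have h1 := h (G.comap (LinearMap.prodMap e.toLinearMap LinearMap.id)) (e.symm x) y
    (by simpa using hG)
  simpa using h1

theorem Disj.pi (h : Disj R X Y) (n : ℕ) : Disj R (Fin n → X) Y := by
  induction n with
  | zero =>
    intro G x y hG
    have : x = 0 := Subsingleton.elim _ _
    subst this
    exact G.zero_mem
  | succ n ih =>
    exact Disj.congr (Fin.consLinearEquiv R (fun _ => X)) (h.prod ih)

end disj

section linalg

variable {K V : Type*} [Field K] [AddCommGroup V] [Module K V] [Module.Finite K V]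

/-- If every subspace stable under the algebra `S` of endomorphisms is graded for the
decomposition `V = P ⊕ Q`, which `S` respects, then the projector on `P` lies in `S`. -/
theorem projection_mem_of_graded {P Q : Submodule K V} (hPQ : IsCompl P Q)
    (S : Subalgebra K (Module.End K V))
    (hP : ∀ s ∈ S, ∀ x ∈ P, s x ∈ P) (hQ : ∀ s ∈ S, ∀ x ∈ Q, s x ∈ Q)
    (hgr : ∀ U : Submodule K V, (∀ s ∈ S, ∀ x ∈ U, s x ∈ U) →
      ∀ x ∈ U, P.projection Q hPQ x ∈ U) :
    P.projection Q hPQ ∈ S := by
  let P' : Submodule S V :=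
    { carrier := P, add_mem' := fun ha hb => P.add_mem ha hb, zero_mem' := P.zero_mem,
      smul_mem' := fun s x hx => hP s s.2 x hx }
  let Q' : Submodule S V :=
    { carrier := Q, add_mem' := fun ha hb => Q.add_mem ha hb, zero_mem' := Q.zero_mem,
      smul_mem' := fun s x hx => hQ s s.2 x hx }
  have hdisj : Disj S P' Q' := by
    rintro G ⟨x, hx⟩ ⟨y, hy⟩ hG
    let f : P' × Q' →ₗ[S] V := LinearMap.coprod P'.subtype Q'.subtype
    let U' : Submodule S V := G.map f
    let U : Submodule K V :=
      { carrier := U', add_mem' := fun ha hb => U'.add_mem ha hb, zero_mem' := U'.zero_mem,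
        smul_mem' := fun c x hx => by
          have := U'.smul_mem (algebraMap K S c) hx
          simpa using this }
    have h1 : x + y ∈ U := ⟨(⟨x, hx⟩, ⟨y, hy⟩), hG, rfl⟩
    have h2 := hgr U (fun s hs x hx => U'.smul_mem ⟨s, hs⟩ hx) _ h1
    rw [map_add, (Submodule.projection_eq_self_iff hPQ x).2 hx,
      (Submodule.projection_apply_eq_zero_iff hPQ).2 hy, add_zero] at h2
    obtain ⟨⟨⟨x', hx'⟩, ⟨y', hy'⟩⟩, hz, hz2⟩ := h2
    have h3 : x' + y' = x := hz2
    have h4 : y' ∈ P := by
      have : y' = x - x' := by rw [← h3]; abel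
      rw [this]
      exact P.sub_mem hx hx'
    have h5 : y' = 0 := Submodule.disjoint_def.1 hPQ.disjoint y' h4 hy'
    subst h5
    have h6 : x' = x := by simpa using h3
    subst h6
    exact hz
  let bP := Module.finBasis K P
  let bQ := Module.finBasis K Q
  have hd2 : Disj S (Fin (Module.finrank K P) → P') (Fin (Module.finrank K Q) → Q') :=
    ((hdisj.pi _).symm.pi _).symm
  let vP : Fin (Module.finrank K P) → P' := fun i => ⟨bP i, (bP i).2⟩
  let vQ : Fin (Module.finrank K Q) → Q' := fun i => ⟨bQ i, (bQ i).2⟩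
  have h1 := hd2 (Submodule.span S {(vP, vQ)}) vP vQ (Submodule.mem_span_singleton_self _)
  obtain ⟨s, hs⟩ := Submodule.mem_span_singleton.1 h1
  have hs1 : ∀ i, s • vP i = vP i := fun i => congrFun (congrArg Prod.fst hs) i
  have hs2 : ∀ i, s • vQ i = 0 := fun i => congrFun (congrArg Prod.snd hs) i
  have hs3 : ∀ x ∈ P, (s : Module.End K V) x = x := by
    intro x hx
    have : (s : Module.End K V) ∘ₗ P.subtype = P.subtype := by
      refine bP.ext fun i => ?_
      exact congrArg Subtype.val (hs1 i)
    exact LinearMap.congr_fun this ⟨x, hx⟩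
  have hs4 : ∀ x ∈ Q, (s : Module.End K V) x = 0 := by
    intro x hx
    have : (s : Module.End K V) ∘ₗ Q.subtype = 0 := by
      refine bQ.ext fun i => ?_
      exact congrArg Subtype.val (hs2 i)
    exact LinearMap.congr_fun this ⟨x, hx⟩
  have : P.projection Q hPQ = s := by
    ext x
    obtain ⟨y, hy, z, hz, rfl⟩ := Submodule.mem_sup.1
      (show x ∈ P ⊔ Q by rw [hPQ.sup_eq_top]; exact Submodule.mem_top)
    rw [map_add, map_add, (Submodule.projection_eq_self_iff hPQ y).2 hy,
      (Submodule.projection_apply_eq_zero_iff hPQ).2 hz, hs3 y hy, hs4 z hz]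
  rw [this]
  exact s.2

end linalg

theorem span_mul_mem {K A : Type*} [Field K] [Ring A] [Algebra K A] (S : Set A)
    (h : ∀ a ∈ S, ∀ b ∈ S, a * b ∈ S) {a b : A} (ha : a ∈ Submodule.span K S)
    (hb : b ∈ Submodule.span K S) : a * b ∈ Submodule.span K S := by
  have h1 := Submodule.mul_mem_mul ha hb
  rw [Submodule.span_mul_span] at h1
  refine Submodule.span_mono ?_ h1
  rintro _ ⟨x, hx, y, hy, rfl⟩
  exact h x hx y hy

universe w v u

variable {F K : Type w} [Field F] [Field K] [Algebra F K]
    {C : Type u} [Category.{v} C] [Preadditive C] [Linear F C]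
    [MonoidalCategory C] [SymmetricCategory C]

namespace SuperRealization

variable (R : SuperRealization F K C)

/-- the `K`-span of the algebraic endomorphisms, a subalgebra -/
noncomputable def algSpan (A : C) : Subalgebra K (Module.End K (R.H.obj A)) where
  carrier := Submodule.span K {T : R.H.obj A →ₗ[K] R.H.obj A | R.Algebraic T}
  mul_mem' := by
    intro a b ha hb
    refine span_mul_mem _ ?_ ha hb
    rintro _ ⟨f, rfl⟩ _ ⟨g, rfl⟩
    refine ⟨g ≫ f, ?_⟩
    ext z
    exact R.act_comp g f z
  add_mem' := fun ha hb => Submodule.add_mem _ ha hb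
  algebraMap_mem' := by
    intro c
    have h1 : (1 : Module.End K (R.H.obj A)) ∈
        Submodule.span K {T : R.H.obj A →ₗ[K] R.H.obj A | R.Algebraic T} := by
      refine Submodule.subset_span ⟨𝟙 A, ?_⟩
      ext z
      exact R.act_id z
    rw [Algebra.algebraMap_eq_smul_one]
    exact Submodule.smul_mem _ c h1

/-- **Criterion**: the conjecture for `A` holds if and only if every subspace of `H A` stable
under all endomorphisms of `A` is graded. -/
theorem cnc_iff_graded [CharZero F]
    (hunit : ∀ z : 𝟙_ C ⟶ 𝟙_ C, ∃ c : F, z = c • 𝟙 (𝟙_ C)) (A A' : C) [ExactPairing A A'] :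
    R.CNC A ↔ ∀ U : Submodule K (R.H.obj A), (∀ f : A ⟶ A, ∀ x ∈ U, R.act f x ∈ U) →
      ∀ x ∈ U, R.projEven A x ∈ U := by
  have hfin := R.finite_obj A A'
  constructor
  · rintro ⟨⟨f, hf⟩, -⟩ U hU x hx
    rw [← hf]
    exact hU f x hx
  · intro h
    have hstab : ∀ (i : ZMod 2), ∀ s ∈ R.algSpan A, ∀ x ∈ R.part A i, s x ∈ R.part A i := by
      intro i s hs x hx
      have hs' : s ∈ Submodule.span K {T : R.H.obj A →ₗ[K] R.H.obj A | R.Algebraic T} := hs
      clear hs
      induction hs' using Submodule.span_induction with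
      | mem s hs => obtain ⟨f, rfl⟩ := hs; exact R.map_mem f i x hx
      | zero => exact Submodule.zero_mem _
      | add a b _ _ ha hb => exact Submodule.add_mem _ ha hb
      | smul c a _ ha => exact Submodule.smul_mem _ _ ha
    have h1 : R.projEven A ∈ R.algSpan A := by
      refine projection_mem_of_graded (R.isCompl A) (R.algSpan A) (hstab 0) (hstab 1) ?_
      intro U hU x hx
      refine h U (fun f x hx => hU _ (Submodule.subset_span ⟨f, rfl⟩) x hx) x hx
    have h2 := R.projEven_algebraic_of_span hunit A A' h1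
    refine ⟨h2, ?_⟩
    obtain ⟨f, hf⟩ := h2
    refine ⟨𝟙 A - f, ?_⟩
    ext x
    have h3 := LinearMap.congr_fun (R.projEven_add_projOdd A) x
    have h4 : R.projEven A x + R.projOdd A x = x := h3
    rw [act_sub, act_id, hf, sub_eq_iff_eq_add, add_comm, h4]

end SuperRealization

end Pool.Agent.H71.NC
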