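import Pool.Agent.H71.NC.Newton

open Matrix Polynomial

namespace Pool.Agent.H71.NC

section

variable {F K : Type*} [Field F] [Field K] [Algebra F K]

/-- coefficientwise application of an `F`-linear functional, as a polynomial over `K` -/
noncomputable def phiPoly (φ : K →ₗ[F] F) (p : K[X]) : K[X] :=
  ∑ i ∈ Finset.range (p.natDegree + 1), monomial i (algebraMap F K (φ (p.coeff i)))

theorem coeff_phiPoly (φ : K →ₗ[F] F) (p : K[X]) (k : ℕ) :
    (phiPoly φ p).coeff k = algebraMap F K (φ (p.coeff k)) := by
  unfold phiPoly
  rw [finsetSum_coeff]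
  simp only [coeff_monomial]
  rw [Finset.sum_ite_eq']
  split_ifs with h
  · rfl
  · rw [Finset.mem_range, not_lt] at h
    rw [coeff_eq_zero_of_natDegree_lt (by omega), map_zero, map_zero]

theorem natDegree_phiPoly_le (φ : K →ₗ[F] F) (p : K[X]) :
    (phiPoly φ p).natDegree ≤ p.natDegree := by
  rw [natDegree_le_iff_coeff_eq_zero]
  intro k hk
  rw [coeff_phiPoly, coeff_eq_zero_of_natDegree_lt hk, map_zero, map_zero]

theorem monic_phiPoly (φ : K →ₗ[F] F) (h1 : φ 1 = 1) {p : K[X]} (hp : p.Monic) :
    (phiPoly φ p).Monic := by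
  refine monic_of_natDegree_le_of_coeff_eq_one p.natDegree (natDegree_phiPoly_le φ p) ?_
  rw [coeff_phiPoly, hp.coeff_natDegree, h1, map_one]

theorem natDegree_phiPoly (φ : K →ₗ[F] F) (h1 : φ 1 = 1) {p : K[X]} (hp : p.Monic) :
    (phiPoly φ p).natDegree = p.natDegree := by
  refine le_antisymm (natDegree_phiPoly_le φ p) ?_
  refine le_natDegree_of_ne_zero ?_
  rw [coeff_phiPoly, hp.coeff_natDegree, h1, map_one]
  exact one_ne_zero

theorem reflect_phiPoly (φ : K →ₗ[F] F) (p : K[X]) (N : ℕ) :
    reflect N (phiPoly φ p) = phiPoly φ (reflect N p) := by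
  ext k
  rw [coeff_reflect, coeff_phiPoly, coeff_phiPoly, coeff_reflect]

theorem exists_phi : ∃ φ : K →ₗ[F] F, φ 1 = 1 := by
  obtain ⟨g, hg⟩ := LinearMap.exists_leftInverse_of_injective (Algebra.linearMap F K)
    (LinearMap.ker_eq_bot.2 (algebraMap F K).injective)
  refine ⟨g, ?_⟩
  have := LinearMap.congr_fun hg 1
  simpa using this

/-- coefficients of the quotient of reversed characteristic polynomials -/
theorem quot_coeff_mem [CharZero K] {n m : Type*} [Fintype n] [DecidableEq n] [Fintype m]
    [DecidableEq m] (M : Matrix n n K) (N : Matrix m m K)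
    (h : ∀ k, trace (M ^ (k + 1)) - trace (N ^ (k + 1)) ∈ (algebraMap F K).range)
    (R : PowerSeries K) (hR : rps M = R * rps N) (k : ℕ) :
    PowerSeries.coeff k R ∈ (algebraMap F K).range := by
  have hN0 : PowerSeries.constantCoeff (rps N) = 1 := by
    unfold rps
    have := eval_charpolyRev (M := N)
    rw [Polynomial.constantCoeff_coe, coeff_zero_eq_eval_zero, this]
  have hM0 : PowerSeries.constantCoeff (rps M) = 1 := by
    unfold rps
    have := eval_charpolyRev (M := M)
    rw [Polynomial.constantCoeff_coe, coeff_zero_eq_eval_zero, this]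
  have hNne : rps N ≠ 0 := by
    intro h0; rw [h0] at hN0; simp at hN0
  have hR0 : PowerSeries.constantCoeff R = 1 := by
    have := congrArg PowerSeries.constantCoeff hR
    rw [map_mul, hM0, hN0, mul_one] at this
    exact this.symm
  have hd : PowerSeries.derivative K R = - ((tps M - tps N) * R) := by
    have h1 := congrArg (PowerSeries.derivative K) hR
    rw [deriv_rps, Derivation.leibniz, deriv_rps, hR] at h1
    simp only [smul_eq_mul] at h1
    have h2 : PowerSeries.derivative K R * rps N = - ((tps M - tps N) * R) * rps N := by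
      linear_combination -h1
    exact mul_right_cancel₀ hNne h2
  induction k using Nat.strong_induction_on with
  | _ k ih =>
    cases k with
    | zero =>
      rw [PowerSeries.coeff_zero_eq_constantCoeff_apply, hR0]
      exact one_mem _
    | succ k =>
      have h1 := congrArg (PowerSeries.coeff k) hd
      rw [PowerSeries.coeff_derivative, map_neg, PowerSeries.coeff_mul] at h1
      have hmem : (∑ p ∈ Finset.HasAntidiagonal.antidiagonal k, PowerSeries.coeff p.1 (tps M - tps N) *
          PowerSeries.coeff p.2 R) ∈ (algebraMap F K).range := by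
        refine Subring.sum_mem _ fun p hp => Subring.mul_mem _ ?_ ?_
        · rw [map_sub]
          unfold tps
          rw [PowerSeries.coeff_mk, PowerSeries.coeff_mk]
          exact h _
        · refine ih _ ?_
          have := Finset.HasAntidiagonal.mem_antidiagonal.1 hp
          omega
      have hne : ((k : K) + 1) ≠ 0 := by exact_mod_cast Nat.succ_ne_zero k
      have h3 : PowerSeries.coeff (k + 1) R = -(∑ p ∈ Finset.HasAntidiagonal.antidiagonal k,
          PowerSeries.coeff p.1 (tps M - tps N) * PowerSeries.coeff p.2 R) * ((k : K) + 1)⁻¹ := by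
        rw [← h1, mul_assoc, mul_inv_cancel₀ hne, mul_one]
      rw [h3]
      refine Subring.mul_mem _ (Subring.neg_mem _ hmem) ?_
      refine ⟨((k : F) + 1)⁻¹, ?_⟩
      rw [map_inv₀, map_add, map_natCast, map_one]

/-- If the differences of traces of powers lie in `F` and the characteristic polynomials are
coprime, then both characteristic polynomials have coefficients in `F`. -/
theorem charpoly_descent [CharZero K] {n m : Type*} [Fintype n] [DecidableEq n] [Fintype m]
    [DecidableEq m] (M : Matrix n n K) (N : Matrix m m K)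
    (h : ∀ k, trace (M ^ (k + 1)) - trace (N ^ (k + 1)) ∈ (algebraMap F K).range)
    (hco : IsCoprime M.charpoly N.charpoly) :
    ∃ A B : F[X], M.charpoly = A.map (algebraMap F K) ∧ N.charpoly = B.map (algebraMap F K) := by
  obtain ⟨φ, hφ⟩ := exists_phi (F := F) (K := K)
  -- the quotient power series
  have hN0 : PowerSeries.constantCoeff (rps N) = 1 := by
    unfold rps
    have := eval_charpolyRev (M := N)
    rw [Polynomial.constantCoeff_coe, coeff_zero_eq_eval_zero, this]
  have hNinv : (rps N)⁻¹ * rps N = 1 := by
    refine PowerSeries.inv_mul_cancel _ ?_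
    rw [hN0]; exact one_ne_zero
  set R : PowerSeries K := rps M * (rps N)⁻¹ with hRdef
  have hR : rps M = R * rps N := by
    rw [hRdef, mul_assoc, hNinv, mul_one]
  have hRm := quot_coeff_mem (F := F) M N h R hR
  -- apply the functional
  have hphi : ((phiPoly φ M.charpolyRev : K[X]) : PowerSeries K) =
      R * ((phiPoly φ N.charpolyRev : K[X]) : PowerSeries K) := by
    ext k
    rw [Polynomial.coeff_coe, coeff_phiPoly, PowerSeries.coeff_mul]
    have h1 := congrArg (PowerSeries.coeff k) hR
    unfold rps at h1
    rw [Polynomial.coeff_coe, PowerSeries.coeff_mul] at h1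
    rw [h1, map_sum, map_sum]
    refine Finset.sum_congr rfl fun p _ => ?_
    rw [Polynomial.coeff_coe, Polynomial.coeff_coe, coeff_phiPoly]
    obtain ⟨r, hr⟩ := hRm p.1
    rw [← hr, ← Algebra.smul_def, φ.map_smul, smul_eq_mul, map_mul]
  have hrev : M.charpolyRev * phiPoly φ N.charpolyRev =
      phiPoly φ M.charpolyRev * N.charpolyRev := by
    apply Polynomial.coe_injective K
    rw [Polynomial.coe_mul, Polynomial.coe_mul, hphi]
    have h2 : ((M.charpolyRev : K[X]) : PowerSeries K) = R * ((N.charpolyRev : K[X]) :
        PowerSeries K) := hR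
    rw [h2]; ring
  -- pass to the characteristic polynomials
  have hMdeg : M.charpoly.natDegree = Fintype.card n := charpoly_natDegree_eq_dim M
  have hNdeg : N.charpoly.natDegree = Fintype.card m := charpoly_natDegree_eq_dim N
  have hMr : M.charpolyRev = reflect (Fintype.card n) M.charpoly := by
    rw [← reverse_charpoly, reverse, hMdeg]
  have hNr : N.charpolyRev = reflect (Fintype.card m) N.charpoly := by
    rw [← reverse_charpoly, reverse, hNdeg]
  have hdM : (phiPoly φ M.charpoly).natDegree ≤ Fintype.card n :=
    (natDegree_phiPoly_le φ _).trans hMdeg.le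
  have hdN : (phiPoly φ N.charpoly).natDegree ≤ Fintype.card m :=
    (natDegree_phiPoly_le φ _).trans hNdeg.le
  have hmain : M.charpoly * phiPoly φ N.charpoly = phiPoly φ M.charpoly * N.charpoly := by
    have h3 : reflect (Fintype.card n + Fintype.card m) (M.charpoly * phiPoly φ N.charpoly) =
        reflect (Fintype.card n + Fintype.card m) (phiPoly φ M.charpoly * N.charpoly) := by
      rw [reflect_mul _ _ hMdeg.le hdN, reflect_mul _ _ hdM hNdeg.le, reflect_phiPoly,
        reflect_phiPoly, ← hMr, ← hNr, hrev]
    have h4 := congrArg (reflect (Fintype.card n + Fintype.card m)) h3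
    rwa [reflect_reflect, reflect_reflect] at h4
  have hMmon := charpoly_monic M
  have hNmon := charpoly_monic N
  have e1 : phiPoly φ M.charpoly = M.charpoly := by
    have hdvd : M.charpoly ∣ phiPoly φ M.charpoly := by
      refine hco.dvd_of_dvd_mul_right ?_
      rw [← hmain]
      exact dvd_mul_right _ _
    exact (eq_of_monic_of_dvd_of_natDegree_le hMmon (monic_phiPoly φ hφ hMmon) hdvd
      (natDegree_phiPoly_le φ _))
  have e2 : phiPoly φ N.charpoly = N.charpoly := by
    have hdvd : N.charpoly ∣ phiPoly φ N.charpoly := by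
      refine hco.symm.dvd_of_dvd_mul_left ?_
      rw [hmain]
      exact dvd_mul_left _ _
    exact (eq_of_monic_of_dvd_of_natDegree_le hNmon (monic_phiPoly φ hφ hNmon) hdvd
      (natDegree_phiPoly_le φ _))
  have lift : ∀ p : K[X], phiPoly φ p = p → ∃ A : F[X], p = A.map (algebraMap F K) := by
    intro p hp
    refine ⟨∑ i ∈ Finset.range (p.natDegree + 1), monomial i (φ (p.coeff i)), ?_⟩
    conv_lhs => rw [← hp]
    unfold phiPoly
    rw [Polynomial.map_sum]
    refine Finset.sum_congr rfl fun i _ => ?_
    rw [map_monomial]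
  obtain ⟨A, hA⟩ := lift _ e1
  obtain ⟨B, hB⟩ := lift _ e2
  exact ⟨A, B, hA, hB⟩

end

end Pool.Agent.H71.NC
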