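import Pool.Agent.H71.NC.Coeff

open CategoryTheory MonoidalCategory TensorProduct Polynomial

namespace Pool.Agent.H71.NC

section matrices

variable {K : Type*} [Field K]

theorem rps_const {n : Type*} [Fintype n] [DecidableEq n] (N : Matrix n n K) :
    PowerSeries.constantCoeff (rps N) = 1 := by
  unfold rps
  have := Matrix.eval_charpolyRev (M := N)
  rw [Polynomial.constantCoeff_coe, coeff_zero_eq_eval_zero, this]

/-- the traces of powers determine the reversed characteristic polynomial -/
theorem rps_eq_of_tps [CharZero K] {n m : Type*} [Fintype n] [DecidableEq n] [Fintype m] [DecidableEq m]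
    (M : Matrix n n K) (N : Matrix m m K) (h : tps M = tps N) : rps M = rps N := by
  have hN : rps N ≠ 0 := by
    intro h0
    have := rps_const N
    rw [h0] at this
    simp at this
  have hinv : (rps N)⁻¹ * rps N = 1 := by
    refine PowerSeries.inv_mul_cancel _ ?_
    rw [rps_const]; exact one_ne_zero
  have hQ : rps M * (rps N)⁻¹ = 1 := by
    refine PowerSeries.derivative.ext ?_ ?_
    · rw [PowerSeries.derivative_one, Derivation.leibniz, PowerSeries.derivative_inv', deriv_rps,
        deriv_rps, h, smul_eq_mul, smul_eq_mul]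
      linear_combination (rps M * (rps N)⁻¹ * tps N) * hinv
    · rw [map_mul, rps_const, one_mul, PowerSeries.constantCoeff_inv, rps_const]
      simp
  calc rps M = rps M * ((rps N)⁻¹ * rps N) := by rw [hinv, mul_one]
    _ = rps N := by rw [← mul_assoc, hQ, one_mul]

theorem charpolyRev_eq [CharZero K] {n m : Type*} [Fintype n] [DecidableEq n] [Fintype m] [DecidableEq m]
    (M : Matrix n n K) (N : Matrix m m K) (p : ℕ)
    (h : ∀ k : ℕ, Matrix.trace (M ^ (k + 1)) - Matrix.trace (N ^ (k + 1)) = (p : K)) :
    M.charpolyRev = N.charpolyRev * (1 - X) ^ p := by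
  have h1 : tps M = tps (Matrix.fromBlocks N 0 0 (1 : Matrix (Fin p) (Fin p) K)) := by
    ext k
    unfold tps
    rw [PowerSeries.coeff_mk, PowerSeries.coeff_mk]
    have h2 : Matrix.fromBlocks N 0 0 (1 : Matrix (Fin p) (Fin p) K) ^ (k + 1) =
        Matrix.fromBlocks (N ^ (k + 1)) 0 0 1 := by
      rw [Matrix.fromBlocks_diagonal_pow, one_pow]
    rw [h2, sub_eq_iff_eq_add'.1 (h k)]
    simp [Matrix.trace, Fintype.sum_sum_type]
  have h3 := rps_eq_of_tps _ _ h1
  unfold rps at h3
  have h4 := Polynomial.coe_injective K h3
  rw [h4]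
  unfold Matrix.charpolyRev
  have h5 : (1 - (X : K[X]) • (Matrix.fromBlocks N 0 0 (1 : Matrix (Fin p) (Fin p) K)).map C) =
      Matrix.fromBlocks (1 - (X : K[X]) • N.map C) 0 0
        ((1 - X : K[X]) • (1 : Matrix (Fin p) (Fin p) K[X])) := by
    ext i j
    rcases i with i | i <;> rcases j with j | j
    · simp [Matrix.one_apply]
    · simp
    · simp
    · by_cases hij : i = j
      · subst hij; simp
      · simp [hij]
  rw [h5, Matrix.det_fromBlocks_zero₁₂, Matrix.det_smul, Matrix.det_one, mul_one,
    Fintype.card_fin]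

theorem reflect_one_sub (p : ℕ) : reflect p ((1 - X : K[X]) ^ p) = (X - 1) ^ p := by
  induction p with
  | zero => simp
  | succ p ih =>
    have h1 : (1 - X : K[X]).natDegree ≤ 1 := by
      refine (natDegree_sub_le _ _).trans ?_
      simp
    have h2 : ((1 - X : K[X]) ^ p).natDegree ≤ p := by
      refine (natDegree_pow_le).trans ?_
      nlinarith
    rw [pow_succ, reflect_mul _ _ h2 h1, ih, pow_succ]
    congr 1
    rw [reflect_sub]
    have h3 : reflect 1 (1 : K[X]) = X := by
      rw [← C_1, reflect_C]; simp
    have h4 : reflect 1 (X : K[X]) = 1 := by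
      have h5 : (X : K[X]) = C 1 * X ^ 1 := by simp
      rw [h5, reflect_C_mul_X_pow]; simp
    rw [h3, h4]

theorem indep_core [CharZero K] {n m : Type*} [Fintype n] [DecidableEq n] [Fintype m]
    [DecidableEq m] (M : Matrix n n K) (N : Matrix m m K) (p : ℕ)
    (h : ∀ k : ℕ, Matrix.trace (M ^ (k + 1)) - Matrix.trace (N ^ (k + 1)) = (p : K)) :
    p ≤ Fintype.card n ∧ (Fintype.card n = p →
      M.charpoly = (X - 1) ^ p ∧ N.charpoly = X ^ Fintype.card m) := by
  have h1 := charpolyRev_eq M N p h
  have hN0 : N.charpolyRev ≠ 0 := by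
    intro h0
    have := Matrix.eval_charpolyRev (M := N)
    rw [h0] at this
    simp at this
  have hdX : (1 - X : K[X]).natDegree = 1 := by
    have : (1 - X : K[X]) = -(X - C 1) := by simp
    rw [this, natDegree_neg, natDegree_X_sub_C]
  have hX0 : (1 - X : K[X]) ≠ 0 := by
    intro h0
    rw [h0] at hdX
    simp at hdX
  have h2 : M.charpolyRev.natDegree = N.charpolyRev.natDegree + p := by
    rw [h1, natDegree_mul hN0 (pow_ne_zero _ hX0), natDegree_pow, hdX, mul_one]
  have hMdeg : M.charpoly.natDegree = Fintype.card n := Matrix.charpoly_natDegree_eq_dim M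
  have hNdeg : N.charpoly.natDegree = Fintype.card m := Matrix.charpoly_natDegree_eq_dim N
  have hMr : M.charpolyRev = reflect (Fintype.card n) M.charpoly := by
    rw [← Matrix.reverse_charpoly, reverse, hMdeg]
  have hNr : N.charpolyRev = reflect (Fintype.card m) N.charpoly := by
    rw [← Matrix.reverse_charpoly, reverse, hNdeg]
  have h3 : M.charpolyRev.natDegree ≤ Fintype.card n := by
    rw [← hMdeg, ← Matrix.reverse_charpoly]
    exact reverse_natDegree_le _
  refine ⟨by omega, ?_⟩
  intro hp
  have h4 : N.charpolyRev.natDegree = 0 := by omega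
  have h5 : N.charpolyRev = 1 := by
    rw [eq_C_of_natDegree_eq_zero h4]
    have := Matrix.eval_charpolyRev (M := N)
    rw [← coeff_zero_eq_eval_zero] at this
    rw [this, C_1]
  constructor
  · have h6 := congrArg (reflect (Fintype.card n)) hMr
    rw [reflect_reflect, h1, h5, one_mul, hp, reflect_one_sub] at h6
    exact h6.symm
  · have h6 := congrArg (reflect (Fintype.card m)) hNr
    rw [reflect_reflect, h5, ← C_1, reflect_C] at h6
    rw [← h6]
    simp

end matrices

universe w v u

variable {F K K' : Type w} [Field F] [Field K] [Algebra F K] [Field K'] [Algebra F K']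
    {C : Type u} [Category.{v} C] [Preadditive C] [Linear F C]
    [MonoidalCategory C] [SymmetricCategory C]

namespace SuperRealization

variable (R : SuperRealization F K C) (R' : SuperRealization F K' C)

theorem strace_of_ctr (A A' : C) [ExactPairing A A'] (u : A ⟶ A) (c : F)
    (hc : ctr A A' u = c • 𝟙 (𝟙_ C)) :
    LinearMap.trace K _ (R.sigma A ∘ₗ R.act u) = algebraMap F K c := by
  have h := R.act_ctr A A' u
  rw [hc, act_smul, act_id] at h
  have h2 : (algebraMap F K c - LinearMap.trace K _ (R.sigma A ∘ₗ R.act u)) • R.one = 0 := by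
    rw [sub_smul, h, sub_self]
  rcases smul_eq_zero.1 h2 with h3 | h3
  · exact (sub_eq_zero.1 h3).symm
  · exact absurd h3 R.one_ne_zero'

/-- coprime annihilating polynomials on the two components make the projector algebraic -/
theorem projEven_algebraic_of_coprime {A : C} {n m : Type*} [Fintype n] [DecidableEq n]
    [Fintype m] [DecidableEq m] (b0 : Module.Basis n K (R.part A 0))
    (b1 : Module.Basis m K (R.part A 1)) (v : End A) (P Q : F[X]) (hPQ : IsCoprime P Q)
    (hP0 : aeval (R.mat b0 v) P = 0) (hQ0 : aeval (R.mat b1 v) Q = 0) :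
    R.Algebraic (R.projEven A) := by
  obtain ⟨a, c, hac⟩ := hPQ
  set e : F[X] := c * Q with he
  have he' : e = 1 - a * P := by rw [he, ← hac]; ring
  have hm0 : R.mat b0 (aeval v e) = 1 := by
    rw [← Polynomial.aeval_algHom_apply, he', map_sub, map_one, map_mul, hP0, mul_zero, sub_zero]
  have hm1 : R.mat b1 (aeval v e) = 0 := by
    rw [← Polynomial.aeval_algHom_apply, he, map_mul, hQ0, mul_zero]
  have hr0 : R.resL 0 (aeval v e : End A) = LinearMap.id := by
    apply (LinearMap.toMatrix b0 b0).injective
    rw [LinearMap.toMatrix_id]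
    exact hm0
  have hr1 : R.resL 1 (aeval v e : End A) = 0 := by
    apply (LinearMap.toMatrix b1 b1).injective
    rw [map_zero]
    exact hm1
  refine ⟨(aeval v e : End A), ?_⟩
  ext x
  refine R.hom_ind (P := fun x => R.act (aeval v e : End A) x = R.projEven A x) x ?_ ?_
  · intro x y hx hy
    simp only [map_add, hx, hy]
  · intro i x hx
    rcases zmod_cases i with rfl | rfl
    · have h1 := LinearMap.congr_fun hr0 ⟨x, hx⟩
      have h2 : R.act (aeval v e : End A) x = x := congrArg Subtype.val h1
      have h3 : R.projEven A x = x := by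
        unfold projEven; exact (Submodule.projection_eq_self_iff _ _).2 hx
      rw [h2, h3]
    · have h1 := LinearMap.congr_fun hr1 ⟨x, hx⟩
      have h2 : R.act (aeval v e : End A) x = 0 := congrArg Subtype.val h1
      have h3 : R.projEven A x = 0 := by
        unfold projEven; exact (Submodule.projection_apply_eq_zero_iff _).2 hx
      rw [h2, h3]

theorem cnc_of_projEven {A : C} (h : R.Algebraic (R.projEven A)) : R.CNC A := by
  refine ⟨h, ?_⟩
  obtain ⟨f, hf⟩ := h
  refine ⟨𝟙 A - f, ?_⟩
  ext x
  have h3 := LinearMap.congr_fun (R.projEven_add_projOdd A) x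
  have h4 : R.projEven A x + R.projOdd A x = x := h3
  rw [act_sub, act_id, hf, sub_eq_iff_eq_add, add_comm, h4]

/-- supertrace of an even projector power -/
theorem strace_projEven (A : C) [Module.Finite K (R.H.obj A)] (e : End A)
    (he : R.act e = R.projEven A) (k : ℕ) :
    LinearMap.trace K _ (R.sigma A ∘ₗ R.act (e ^ (k + 1) : End A)) =
      (Module.finrank K (R.part A 0) : K) := by
  let b0 := Module.finBasis K (R.part A 0)
  let b1 := Module.finBasis K (R.part A 1)
  have h0 : R.mat b0 e = 1 := by
    have : R.resL 0 e = LinearMap.id := by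
      ext x
      rw [resL_apply, he]
      have h3 : R.projEven A (x : R.H.obj A) = x := by
        unfold projEven; exact (Submodule.projection_eq_self_iff _ _).2 x.2
      rw [h3]; rfl
    rw [mat_apply, this, LinearMap.toMatrix_id]
  have h1 : R.mat b1 e = 0 := by
    have : R.resL 1 e = 0 := by
      ext x
      rw [resL_apply, he]
      have h3 : R.projEven A (x : R.H.obj A) = 0 := by
        unfold projEven; exact (Submodule.projection_apply_eq_zero_iff _).2 x.2
      rw [h3]; rfl
    rw [mat_apply, this, map_zero]
  rw [strace_eq, LinearMap.trace_eq_matrix_trace K b0, LinearMap.trace_eq_matrix_trace K b1,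
    ← mat_apply, ← mat_apply, map_pow, map_pow, h0, h1, one_pow, zero_pow (Nat.succ_ne_zero k),
    Matrix.trace_one, Matrix.trace_zero, Fintype.card_fin, sub_zero]

/-- **Independence of the realization.** -/
theorem cnc_realization [CharZero F]
    (hunit : ∀ z : 𝟙_ C ⟶ 𝟙_ C, ∃ c : F, z = c • 𝟙 (𝟙_ C)) (A A' : C) [ExactPairing A A']
    (h : R.CNC A) :
    Module.finrank K (R.H.obj A) ≤ Module.finrank K' (R'.H.obj A) ∧
      (Module.finrank K' (R'.H.obj A) = Module.finrank K (R.H.obj A) → R'.CNC A) := by
  have : CharZero K := charZero_of_injective_algebraMap (algebraMap F K).injective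
  have : CharZero K' := charZero_of_injective_algebraMap (algebraMap F K').injective
  have hfin := R.finite_obj A A'
  have hfin' := R'.finite_obj A A'
  obtain ⟨⟨f, hf⟩, -⟩ := h
  obtain ⟨e, he⟩ : ∃ e : End A, R.act e = R.projEven A := ⟨f, hf⟩
  let c0 := Module.finBasis K' (R'.part A 0)
  let c1 := Module.finBasis K' (R'.part A 1)
  -- the Euler characteristics agree
  have hsum : Module.finrank K (R.part A 0) + Module.finrank K (R.part A 1) =
      Module.finrank K (R.H.obj A) := Submodule.finrank_add_eq_of_isCompl (R.isCompl A)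
  have hsum' : Module.finrank K' (R'.part A 0) + Module.finrank K' (R'.part A 1) =
      Module.finrank K' (R'.H.obj A) := Submodule.finrank_add_eq_of_isCompl (R'.isCompl A)
  have hE : (Module.finrank K (R.part A 0) : ℤ) - Module.finrank K (R.part A 1) =
      Module.finrank K' (R'.part A 0) - Module.finrank K' (R'.part A 1) := by
    obtain ⟨c, hc⟩ := hunit (ctr A A' (𝟙 A))
    have h1 := R.strace_of_ctr A A' _ c hc
    have h2 := R'.strace_of_ctr A A' _ c hc
    rw [strace_eq] at h1 h2
    have g : ∀ i, R.resL i (𝟙 A) = LinearMap.id := by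
      intro i; ext x; rw [resL_apply, act_id]; rfl
    have g' : ∀ i, R'.resL i (𝟙 A) = LinearMap.id := by
      intro i; ext x; rw [resL_apply, act_id]; rfl
    rw [g, g, LinearMap.trace_id, LinearMap.trace_id] at h1
    rw [g', g', LinearMap.trace_id, LinearMap.trace_id] at h2
    have h3 : algebraMap F K c = algebraMap F K
        ((Module.finrank K (R.part A 0) : F) - Module.finrank K (R.part A 1)) := by
      rw [← h1]; simp
    have h4 : algebraMap F K' c = algebraMap F K'
        ((Module.finrank K' (R'.part A 0) : F) - Module.finrank K' (R'.part A 1)) := by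
      rw [← h2]; simp
    have h5 := (algebraMap F K).injective h3
    have h6 := (algebraMap F K').injective h4
    have h7 := h5.symm.trans h6
    exact_mod_cast h7
  obtain ⟨hle, himp⟩ := indep_core (R'.mat c0 e) (R'.mat c1 e) (Module.finrank K (R.part A 0)) (by
    intro k
    obtain ⟨c, hc⟩ := hunit (ctr A A' (e ^ (k + 1) : End A))
    have h1 := R.strace_of_ctr A A' _ c hc
    have h2 := R'.strace_of_ctr A A' _ c hc
    rw [R.strace_projEven A e he k] at h1
    have h3 : algebraMap F K c = algebraMap F K (Module.finrank K (R.part A 0) : F) := by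
      rw [← h1]; simp
    have h5 := (algebraMap F K).injective h3
    rw [strace_eq, LinearMap.trace_eq_matrix_trace K' c0, LinearMap.trace_eq_matrix_trace K' c1,
      ← mat_apply, ← mat_apply, h5, map_natCast, map_pow, map_pow] at h2
    exact h2)
  rw [Fintype.card_fin] at hle himp
  refine ⟨by omega, ?_⟩
  intro hdim
  have hp : Module.finrank K' (R'.part A 0) = Module.finrank K (R.part A 0) := by omega
  obtain ⟨hM, hN⟩ := himp hp
  refine R'.cnc_of_projEven (R'.projEven_algebraic_of_coprime c0 c1 e
    ((X - 1) ^ Module.finrank K (R.part A 0))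
    (X ^ Fintype.card (Fin (Module.finrank K' (R'.part A 1)))) ?_ ?_ ?_)
  · refine IsCoprime.pow ⟨-1, 1, by ring⟩
  · have := Matrix.aeval_self_charpoly (R'.mat c0 e)
    rw [hM] at this
    simpa using this
  · have := Matrix.aeval_self_charpoly (R'.mat c1 e)
    rw [hN] at this
    simpa using this

end SuperRealization

end Pool.Agent.H71.NC
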