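import Mathlib

open Matrix PowerSeries

namespace Pool.Agent.H71.NC

section Jacobi

variable {R A : Type*} [CommRing R] [CommRing A] [Algebra R A] {n : Type*} [Fintype n]
  [DecidableEq n]

theorem deriv_prod {ι : Type*} [DecidableEq ι] (D : Derivation R A A) (s : Finset ι) (f : ι → A) :
    D (∏ i ∈ s, f i) = ∑ i ∈ s, (∏ j ∈ s.erase i, f j) * D (f i) := by
  induction s using Finset.induction_on with
  | empty => simp
  | insert a s ha ih =>
    rw [Finset.prod_insert ha, D.leibniz, Finset.sum_insert ha, Finset.erase_insert ha, ih,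
      smul_eq_mul, smul_eq_mul, Finset.mul_sum, add_comm]
    congr 1
    refine Finset.sum_congr rfl fun i hi => ?_
    have hia : i ≠ a := by rintro rfl; exact ha hi
    rw [Finset.erase_insert_of_ne hia.symm, Finset.prod_insert, mul_assoc]
    intro h
    exact ha (Finset.mem_of_mem_erase h)

/-- Jacobi's formula for derivations -/
theorem deriv_det (D : Derivation R A A) (M : Matrix n n A) :
    D (det M) = trace (adjugate M * M.map D) := by
  have h1 : D (det M) = ∑ i, (M.updateCol i (fun k => D (M k i))).det := by
    rw [det_apply]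
    simp only [map_sum, det_apply]
    rw [Finset.sum_comm]
    refine Finset.sum_congr rfl fun σ _ => ?_
    rw [← Finset.smul_sum]
    have : D ((Equiv.Perm.sign σ) • ∏ i, M (σ i) i) = (Equiv.Perm.sign σ) • D (∏ i, M (σ i) i) := by
      rcases Int.units_eq_one_or (Equiv.Perm.sign σ) with h | h <;> rw [h] <;> simp
    rw [this, deriv_prod]
    congr 1
    refine Finset.sum_congr rfl fun i _ => ?_
    rw [← Finset.mul_prod_erase Finset.univ _ (Finset.mem_univ i), mul_comm]
    congr 1
    · simp
    · refine Finset.prod_congr rfl fun j hj => ?_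
      have : j ≠ i := Finset.ne_of_mem_erase hj
      simp [this]
  rw [h1, trace]
  refine Finset.sum_congr rfl fun i _ => ?_
  rw [← cramer_apply, cramer_eq_adjugate_mulVec]
  simp [mulVec, dotProduct, diag, mul_apply]

end Jacobi

section Newton

variable {K : Type*} [Field K] {n : Type*} [Fintype n] [DecidableEq n]

/-- the reversed characteristic polynomial as a power series -/
noncomputable def rps (M : Matrix n n K) : K⟦X⟧ := (M.charpolyRev : K⟦X⟧)

/-- generating function of the traces of powers -/
noncomputable def tps (M : Matrix n n K) : K⟦X⟧ := PowerSeries.mk fun k => trace (M ^ (k + 1))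

theorem rps_eq (M : Matrix n n K) :
    rps M = det (1 - (PowerSeries.X : K⟦X⟧) • M.map (PowerSeries.C (R := K))) := by
  unfold rps charpolyRev
  have : ((Polynomial.coeToPowerSeries.ringHom (R := K))
      (det (1 - (Polynomial.X : Polynomial K) • M.map Polynomial.C))) =
      det (1 - (PowerSeries.X : K⟦X⟧) • M.map (PowerSeries.C (R := K))) := by
    rw [RingHom.map_det]
    congr 1
    ext i j
    simp only [RingHom.mapMatrix_apply, Matrix.map_apply, Matrix.sub_apply, Matrix.smul_apply,
      smul_eq_mul, map_sub, map_mul, Polynomial.coeToPowerSeries.ringHom_apply,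
      Polynomial.coe_X, Polynomial.coe_C, Matrix.one_apply]
    split_ifs <;> simp [PowerSeries.coeff_one]
  simpa using this

theorem deriv_rps (M : Matrix n n K) : d⁄dX K (rps M) = - (tps M * rps M) := by
  classical
  set A : Matrix n n K⟦X⟧ := 1 - (PowerSeries.X : K⟦X⟧) • M.map (PowerSeries.C (R := K)) with hA
  set B : Matrix n n K⟦X⟧ := Matrix.of fun i j => PowerSeries.mk fun k => (M ^ k) i j with hB
  have hAB : A * B = 1 := by
    ext i j m
    rw [hA, Matrix.sub_mul, Matrix.one_mul, Matrix.smul_mul]
    simp only [Matrix.sub_apply, Matrix.smul_apply, smul_eq_mul, map_sub, Matrix.mul_apply,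
      Matrix.map_apply, hB, Matrix.of_apply]
    cases m with
    | zero =>
      simp [Matrix.one_apply]
    | succ m =>
      rw [PowerSeries.coeff_succ_X_mul, map_sum]
      simp only [PowerSeries.coeff_C_mul, PowerSeries.coeff_mk, Matrix.one_apply]
      rw [pow_succ', Matrix.mul_apply, sub_self]
      split_ifs <;> simp
  have hadj : adjugate A = det A • B := by
    have h := adjugate_mul A
    calc adjugate A = adjugate A * (A * B) := by rw [hAB, Matrix.mul_one]
      _ = (adjugate A * A) * B := by rw [Matrix.mul_assoc]
      _ = det A • B := by rw [h, Matrix.smul_mul, Matrix.one_mul]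
  have hdet : rps M = det A := rps_eq M
  suffices hkey : trace (B * A.map (d⁄dX K)) = - tps M by
    rw [hdet, deriv_det, hadj, Matrix.smul_mul, trace_smul, smul_eq_mul, hkey]
    ring
  ext k
  have hmap : A.map (d⁄dX K) = - M.map (PowerSeries.C (R := K)) := by
    ext i j
    simp only [hA, Matrix.map_apply, Matrix.sub_apply, Matrix.smul_apply, smul_eq_mul, map_sub,
      Matrix.neg_apply]
    have h1 : d⁄dX K ((1 : Matrix n n K⟦X⟧) i j) = 0 := by
      rw [Matrix.one_apply]; split_ifs
      · exact PowerSeries.derivative_one
      · exact map_zero _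
    rw [h1, Derivation.leibniz]
    simp
  rw [hmap, Matrix.mul_neg, trace_neg]
  simp only [map_neg, neg_inj]
  unfold tps
  rw [PowerSeries.coeff_mk]
  simp only [trace, Matrix.diag_apply, Matrix.mul_apply, map_sum, hB, Matrix.of_apply,
    Matrix.map_apply, PowerSeries.coeff_mul_C, PowerSeries.coeff_mk]
  refine Finset.sum_congr rfl fun i _ => ?_
  rw [pow_succ, Matrix.mul_apply]

end Newton

end Pool.Agent.H71.NC
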