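import Pool.Agent.H71.NC.Basic

open CategoryTheory MonoidalCategory TensorProduct

namespace Pool.Agent.H71.NC

universe w v u

variable {F K : Type w} [Field F] [Field K] [Algebra F K]
    {C : Type u} [Category.{v} C] [Preadditive C] [Linear F C]
    [MonoidalCategory C] [SymmetricCategory C]

namespace SuperRealization

variable (R : SuperRealization F K C)

section
variable (B B' : C) [ExactPairing B B']

/-- the coevaluation tensor -/
noncomputable def coev : R.H.obj B ⊗[K] R.H.obj B' :=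
  R.muInv B B' (R.act (η_ B B') R.one)

/-- the pairing -/
noncomputable def pair : R.H.obj B' →ₗ[K] R.H.obj B →ₗ[K] K :=
  TensorProduct.curry (R.scal ∘ₗ R.act (ε_ B B') ∘ₗ R.mu B' B)

theorem pair_apply (y : R.H.obj B') (x : R.H.obj B) :
    R.pair B B' y x = R.scal (R.act (ε_ B B') (R.mu B' B (y ⊗ₜ x))) := rfl

theorem act_ev (y : R.H.obj B') (x : R.H.obj B) :
    R.act (ε_ B B') (R.mu B' B (y ⊗ₜ x)) = R.pair B B' y x • R.one := by
  rw [pair_apply, scal_smul_one]

theorem mu_coev : R.mu B B' (R.coev B B') = R.act (η_ B B') R.one := by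
  rw [coev, mu_muInv]

/-- `x ⊗ y ↦ ⟨y, b⟩ x` -/
noncomputable def zig (b : R.H.obj B) : R.H.obj B ⊗[K] R.H.obj B' →ₗ[K] R.H.obj B :=
  TensorProduct.lift
    (LinearMap.flip (LinearMap.lsmul K (R.H.obj B) ∘ₗ (R.pair B B').flip b))

theorem zig_tmul (b x : R.H.obj B) (y : R.H.obj B') :
    R.zig B B' b (x ⊗ₜ y) = R.pair B B' y b • x := by
  simp [zig]

theorem zig_coev (b : R.H.obj B) : R.zig B B' b (R.coev B B') = b := by
  have key : ∀ t : R.H.obj B ⊗[K] R.H.obj B',
      R.act (ρ_ B).hom (R.act (B ◁ ε_ B B') (R.act (α_ B B' B).hom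
        (R.mu (B ⊗ B') B (R.mu B B' t ⊗ₜ b)))) = R.zig B B' b t := by
    intro t
    induction t using TensorProduct.induction_on with
    | zero => simp
    | tmul x y =>
      rw [act_assoc, act_whiskerLeft, act_ev, zig_tmul, TensorProduct.tmul_smul, map_smul,
        map_smul, act_rightUnitor]
    | add s t hs ht => simp only [map_add, TensorProduct.add_tmul, hs, ht]
  rw [← key, mu_coev, ← act_whiskerRight, ← act_comp, ← act_comp, ← act_comp]
  have h := ExactPairing.evaluation_coevaluation B B'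
  have h2 : η_ B B' ▷ B ≫ (α_ B B' B).hom ≫ B ◁ ε_ B B' ≫ (ρ_ B).hom = (λ_ B).hom := by
    rw [← Category.assoc, ← Category.assoc, Category.assoc (η_ B B' ▷ B), h]
    simp
  rw [h2, act_leftUnitor]

/-- an explicit finite dual system -/
theorem exists_dual : ∃ s : Finset (R.H.obj B × R.H.obj B'),
    R.coev B B' = ∑ p ∈ s, p.1 ⊗ₜ[K] p.2 := by
  obtain ⟨s, hs⟩ := TensorProduct.exists_finset (R.coev B B')
  exact ⟨s, hs⟩

theorem dual_sum {s : Finset (R.H.obj B × R.H.obj B')}
    (hs : R.coev B B' = ∑ p ∈ s, p.1 ⊗ₜ[K] p.2) (b : R.H.obj B) :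
    ∑ p ∈ s, R.pair B B' p.2 b • p.1 = b := by
  have h := R.zig_coev B B' b
  rw [hs, map_sum] at h
  simpa [zig_tmul] using h

include B' in
theorem finite_obj : Module.Finite K (R.H.obj B) := by
  classical
  obtain ⟨s, hs⟩ := R.exists_dual B B'
  refine ⟨⟨s.image Prod.fst, ?_⟩⟩
  rw [eq_top_iff]
  intro b _
  rw [← R.dual_sum B B' hs b]
  refine Submodule.sum_mem _ fun p hp => Submodule.smul_mem _ _ (Submodule.subset_span ?_)
  simp only [Finset.coe_image, Set.mem_image, Finset.mem_coe]
  exact ⟨p, hp, rfl⟩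

theorem trace_eq {s : Finset (R.H.obj B × R.H.obj B')}
    (hs : R.coev B B' = ∑ p ∈ s, p.1 ⊗ₜ[K] p.2) (S : R.H.obj B →ₗ[K] R.H.obj B) :
    LinearMap.trace K _ S = ∑ p ∈ s, R.pair B B' p.2 (S p.1) := by
  have h : S = ∑ p ∈ s, (R.pair B B' p.2).smulRight (S p.1) := by
    ext b
    conv_lhs => rw [← R.dual_sum B B' hs b]
    simp
  have := R.finite_obj B B'
  conv_lhs => rw [h]
  rw [map_sum]
  refine Finset.sum_congr rfl fun p _ => ?_
  exact LinearMap.trace_smulRight _ _

/-- parity selection rule for the pairing -/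
theorem pair_parity {i j : ZMod 2} {y : R.H.obj B'} {x : R.H.obj B}
    (hy : y ∈ R.part B' j) (hx : x ∈ R.part B i) (hij : i ≠ j) : R.pair B B' y x = 0 := by
  have h := R.map_mem (ε_ B B') (j + i) _ (R.tensor_mem B' B j i y x hy hx)
  have hji : j + i = 1 := by
    rcases zmod_cases i with rfl | rfl <;> rcases zmod_cases j with rfl | rfl <;>
      first | rfl | exact absurd rfl hij
  rw [hji] at h
  have h2 := R.part_one_unit h
  rw [pair_apply]
  have h3 : R.act (ε_ B B') (R.mu B' B (y ⊗ₜ x)) = 0 := h2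
  rw [h3, map_zero]

theorem act_braid {A B : C} {i j : ZMod 2} {x : R.H.obj A} {y : R.H.obj B}
    (hx : x ∈ R.part A i) (hy : y ∈ R.part B j) :
    R.act (β_ A B).hom (R.mu A B (x ⊗ₜ y)) = ((-1 : K) ^ (i.val * j.val)) • R.mu B A (y ⊗ₜ x) :=
  R.koszul A B i j x y hx hy

/-- evaluation after the Koszul symmetry -/
theorem ev_braid (x : R.H.obj B) (y : R.H.obj B') :
    R.act (ε_ B B') (R.act (β_ B B').hom (R.mu B B' (x ⊗ₜ y))) =
      R.pair B B' y (R.sigma B x) • R.one := by
  refine R.hom_ind (P := fun x => R.act (ε_ B B') (R.act (β_ B B').hom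
    (R.mu B B' (x ⊗ₜ y))) = R.pair B B' y (R.sigma B x) • R.one) x ?_ ?_
  · intro a b ha hb
    simp only [TensorProduct.add_tmul, map_add, ha, hb, add_smul]
  · intro i a ha
    refine R.hom_ind (P := fun y => R.act (ε_ B B') (R.act (β_ B B').hom
      (R.mu B B' (a ⊗ₜ y))) = R.pair B B' y (R.sigma B a) • R.one) y ?_ ?_
    · intro c d hc hd
      simp only [TensorProduct.tmul_add, map_add, hc, hd, add_smul, LinearMap.add_apply]
    · intro j c hc
      rw [R.act_braid ha hc, map_smul, act_ev, R.sigma_part ha, map_smul, smul_smul, smul_eq_mul]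
      by_cases hij : i = j
      · subst hij
        congr 2
        rcases zmod_cases i with rfl | rfl
        · simp
        · have : (1 : ZMod 2).val = 1 := rfl
          simp [this]
      · rw [R.pair_parity B B' hc ha hij]
        simp

end

end SuperRealization

end Pool.Agent.H71.NC
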